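import Pool.Agent.helper306_cramer2.Asym2
import Pool.Agent.helper306_cramer.Main

/-!
# Almost sure convergence, for general densities
-/

namespace Pool.Agent.helper306_cramer2

open Finset Filter Topology MeasureTheory ProbabilityTheory Pool.Agent.helper306_cramer

variable {Ω : Type*} [MeasurableSpace Ω] {μ : Measure Ω} [IsProbabilityMeasure μ]

/-- the number of elements in dyadic intervals -/
theorem ae_RB2 {p : ℕ → ℝ} (hd : PL p) {E : ℕ → Set Ω} (hm : ∀ m, MeasurableSet (E m))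
    (hi : iIndepSet E μ) (hp : ∀ m, 1 ≤ m → μ (E m) = ENNReal.ofReal (p m)) :
    ∀ᵐ ω ∂μ, ∀ᶠ j : ℕ in atTop, ((RB (Rs E ω) j).card : ℝ) ≤ 8 * 2 ^ j / j := by
  classical
  obtain ⟨N0, hN01, hN0⟩ := hd.near (δ := 1) (by norm_num) le_rfl
  set N := max N0 4 with hN
  set s : ℕ → Set Ω := fun j => if N ≤ j then {ω | ¬ ((RB (Rs E ω) j).card : ℝ) ≤ 8 * 2 ^ j / j}
    else ∅ with hs
  have hbound : ∀ j, μ (s j) ≤ ENNReal.ofReal (Real.exp (-1) ^ j) := by
    intro j
    by_cases hj : N ≤ j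
    · have e1 : s j = {ω | ¬ ((Rf (Finset.Ico (2 ^ j) (2 ^ (j + 1))) (Rs E ω)).card : ℝ)
          ≤ 8 * 2 ^ j / j} := by
        rw [hs]; simp only [if_pos hj]
        rfl
      have hj4 : 4 ≤ j := (le_max_right _ _).trans hj
      have hj0 : (0 : ℝ) < j := by exact_mod_cast (by omega : 0 < j)
      have hJ1 : ∀ m ∈ Finset.Ico (2 ^ j) (2 ^ (j + 1)), 1 ≤ m := by
        intro m hm'
        rw [Finset.mem_Ico] at hm'
        have : 0 < 2 ^ j := by positivity
        omega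
      rw [e1, measure_Rf hm hi (fun m => hd.nonneg _) (fun m => hd.le_one _)
        (fun m hm' => hp m (hJ1 m hm')) (fun A => ¬ ((A.card : ℝ) ≤ 8 * 2 ^ j / j))]
      refine ENNReal.ofReal_le_ofReal ?_
      set t : ℝ := 2 ^ j / j with ht
      have ht1 : (j : ℝ) ≤ t := by
        rw [ht, le_div_iff₀ hj0]
        have h : ∀ j : ℕ, 4 ≤ j → j * j ≤ 2 ^ j := by
          intro j hj
          induction j, hj using Nat.le_induction with
          | base => norm_num
          | succ n hn ih =>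
            have : (n + 1) * (n + 1) ≤ 2 * (n * n) := by nlinarith
            calc (n + 1) * (n + 1) ≤ 2 * (n * n) := this
              _ ≤ 2 * 2 ^ n := Nat.mul_le_mul_left _ ih
              _ = 2 ^ (n + 1) := by ring
        exact_mod_cast h j hj4
      have hlog2 : 0.69 < Real.log 2 := by have := Real.log_two_gt_d9; linarith
      have hmk := Ex_indicator_le (p := p) (fun m => hd.nonneg _) (fun m => hd.le_one _)
        (J := Finset.Ico (2 ^ j) (2 ^ (j + 1))) (Φ := fun A => (2 : ℝ) ^ A.card)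
        (fun A _ => by positivity) (t := Real.exp (8 * t * Real.log 2)) (Real.exp_pos _)
        (fun A => ¬ ((A.card : ℝ) ≤ 8 * 2 ^ j / j)) (fun A _ hA => by
          push Not at hA
          have e2 : (8 : ℝ) * 2 ^ j / j = 8 * t := by rw [ht]; ring
          rw [e2] at hA
          have e3 : (2 : ℝ) ^ A.card = Real.exp (A.card * Real.log 2) := by
            rw [mul_comm, Real.exp_mul, Real.exp_log (by norm_num), Real.rpow_natCast]
          rw [e3]
          refine Real.exp_le_exp.mpr ?_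
          exact mul_le_mul_of_nonneg_right hA.le (by linarith))
      refine hmk.trans ?_
      rw [Ex_pow_card]
      have h2 : ∏ m ∈ Finset.Ico (2 ^ j) (2 ^ (j + 1)), (1 + (2 - 1) * p m)
          ≤ Real.exp (2 * t) := by
        have h3 : ∀ m ∈ Finset.Ico (2 ^ j) (2 ^ (j + 1)), (1 + (2 - 1) * p m)
            ≤ Real.exp (2 / j) := by
          intro m hm'
          rw [Finset.mem_Ico] at hm'
          have h5 := (hN0 j ((le_max_left _ _).trans hj) m hm'.1 hm'.2).2.2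
          have h6 := Real.add_one_le_exp (2 / (j : ℝ))
          linarith
        refine (Finset.prod_le_prod (fun m _ => ?_) h3).trans ?_
        · have : 0 ≤ p m := hd.nonneg _
          linarith
        · rw [Finset.prod_const, Nat.card_Ico, ← Real.exp_nat_mul]
          refine Real.exp_le_exp.mpr (le_of_eq ?_)
          have : 2 ^ (j + 1) - 2 ^ j = 2 ^ j := by rw [pow_succ]; omega
          rw [this, ht]
          push_cast; ring
      calc (∏ m ∈ Finset.Ico (2 ^ j) (2 ^ (j + 1)), (1 + (2 - 1) * p m))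
            / Real.exp (8 * t * Real.log 2)
          ≤ Real.exp (2 * t) / Real.exp (8 * t * Real.log 2) :=
            div_le_div_of_nonneg_right h2 (Real.exp_pos _).le
        _ = Real.exp (2 * t - 8 * t * Real.log 2) := by rw [← Real.exp_sub]
        _ ≤ Real.exp (-(j : ℝ)) := by
            refine Real.exp_le_exp.mpr ?_
            have : 0 ≤ t := hj0.le.trans ht1
            nlinarith
        _ = Real.exp (-1) ^ j := by rw [← Real.exp_nat_mul]; congr 1; ring
    · have : s j = ∅ := by rw [hs]; simp only [if_neg hj]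
      rw [this, measure_empty]; exact bot_le
  have hsum : ∑' j, μ (s j) ≠ ⊤ := by
    have hge : Summable (fun j : ℕ => Real.exp (-1) ^ j) :=
      summable_geometric_of_lt_one (Real.exp_pos _).le (by
        rw [Real.exp_lt_one_iff]; norm_num)
    have h1 : ∑' j, μ (s j) ≤ ∑' j : ℕ, ENNReal.ofReal (Real.exp (-1) ^ j) :=
      ENNReal.tsum_le_tsum hbound
    have h2 : ∑' j : ℕ, ENNReal.ofReal (Real.exp (-1) ^ j)
        = ENNReal.ofReal (∑' j : ℕ, Real.exp (-1) ^ j) :=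
      (ENNReal.ofReal_tsum_of_nonneg (fun j => by positivity) hge).symm
    rw [h2] at h1
    exact ne_top_of_le_ne_top ENNReal.ofReal_ne_top h1
  filter_upwards [ae_eventually_notMem hsum] with ω hω
  filter_upwards [hω, eventually_ge_atTop N] with j hj1 hj2
  rw [hs] at hj1
  simp only [if_pos hj2] at hj1
  by_contra hcon
  exact hj1 hcon

/-- concentration for one `x` -/
lemma conc2 {p : ℕ → ℝ} (hd : PL p) {E : ℕ → Set Ω} (hm : ∀ m, MeasurableSet (E m))
    (hi : iIndepSet E μ) (hp : ∀ m, 1 ≤ m → μ (E m) = ENNReal.ofReal (p m)) {q : ℕ}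
    (hq : 1 ≤ q) {x : ℕ} (hx : 1 ≤ x) {z : ℝ} (hz0 : 0 ≤ z) (hz1 : z ≤ 1) :
    μ {ω | ¬ |XS (eL q (Nat.log 2 x)) (JL q (Nat.log 2 x)) (Nat.log 2 x) x z
          (Rf (WL (Nat.log 2 x)) (Rs E ω))
        - Ex p (WL (Nat.log 2 x))
          (XS (eL q (Nat.log 2 x)) (JL q (Nat.log 2 x)) (Nat.log 2 x) x z)| ≤ x / q}
      ≤ ENNReal.ofReal (2 * (q : ℝ) ^ 2 * ((Nat.log 2 x : ℝ) + 1) / 2 ^ (Nat.log 2 x / q)) := by
  classical
  set L := Nat.log 2 x with hL
  set c := Ex p (WL L) (XS (eL q L) (JL q L) L x z) with hc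
  have hx0 : (0 : ℝ) < x := by exact_mod_cast hx
  have hq0 : (0 : ℝ) < q := by exact_mod_cast hq
  have hW1 : ∀ m ∈ WL L, 1 ≤ m := fun m hm' => by
    unfold WL at hm'; exact (Finset.mem_Icc.mp hm').1
  rw [measure_Rf hm hi (fun m => hd.nonneg _) (fun m => hd.le_one _)
    (fun m hm' => hp m (hW1 m hm')) (fun A => ¬ |XS (eL q L) (JL q L) L x z A - c| ≤ x / q)]
  refine ENNReal.ofReal_le_ofReal ?_
  have h1 := Ex_indicator_le (p := p) (fun m => hd.nonneg _) (fun m => hd.le_one _)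
    (J := WL L) (Φ := fun A => (XS (eL q L) (JL q L) L x z A - c) ^ 2)
    (fun A _ => sq_nonneg _) (t := ((x : ℝ) / q) ^ 2) (by positivity)
    (fun A => ¬ |XS (eL q L) (JL q L) L x z A - c| ≤ x / q) (fun A _ hA => by
      push Not at hA
      have h2 : (0 : ℝ) ≤ (x : ℝ) / q := by positivity
      rw [← sq_abs (XS (eL q L) (JL q L) L x z A - c)]
      exact pow_le_pow_left₀ h2 hA.le 2)
  refine h1.trans ?_
  have h2 := XS_var2 hd.nonneg hd.le_one (eL_le_JL q L) x hz0 hz1 (block_sub_WL (q := q) (L := L))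
  rw [← hc] at h2
  rw [div_le_iff₀ (by positivity)]
  refine h2.trans (le_of_eq ?_)
  unfold eL
  field_simp

/-- almost sure concentration along the sequence `(i + 1) ^ (3 q)` -/
theorem ae_conc2 {p : ℕ → ℝ} (hd : PL p) {E : ℕ → Set Ω} (hm : ∀ m, MeasurableSet (E m))
    (hi : iIndepSet E μ) (hp : ∀ m, 1 ≤ m → μ (E m) = ENNReal.ofReal (p m)) {q : ℕ}
    (hq : 1 ≤ q) {z : ℝ} (hz0 : 0 ≤ z) (hz1 : z ≤ 1) :
    ∀ᵐ ω ∂μ, ∀ᶠ i : ℕ in atTop, ∀ x : ℕ, x = (i + 1) ^ (3 * q) →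
      |XS (eL q (Nat.log 2 x)) (JL q (Nat.log 2 x)) (Nat.log 2 x) x z
          (Rf (WL (Nat.log 2 x)) (Rs E ω))
        - Ex p (WL (Nat.log 2 x))
          (XS (eL q (Nat.log 2 x)) (JL q (Nat.log 2 x)) (Nat.log 2 x) x z)| ≤ x / q := by
  set s : ℕ → Set Ω := fun i => {ω | ¬ |XS (eL q (Nat.log 2 ((i + 1) ^ (3 * q))))
      (JL q (Nat.log 2 ((i + 1) ^ (3 * q)))) (Nat.log 2 ((i + 1) ^ (3 * q))) ((i + 1) ^ (3 * q)) z
          (Rf (WL (Nat.log 2 ((i + 1) ^ (3 * q)))) (Rs E ω))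
        - Ex p (WL (Nat.log 2 ((i + 1) ^ (3 * q))))
          (XS (eL q (Nat.log 2 ((i + 1) ^ (3 * q)))) (JL q (Nat.log 2 ((i + 1) ^ (3 * q))))
            (Nat.log 2 ((i + 1) ^ (3 * q))) ((i + 1) ^ (3 * q)) z)|
            ≤ (((i + 1) ^ (3 * q) : ℕ) : ℝ) / q} with hs
  have hb : ∀ i, μ (s i) ≤ ENNReal.ofReal (12 * (q : ℝ) ^ 3 * (1 / ((i : ℝ) + 1) ^ 2)) := by
    intro i
    have h1 := conc2 hd hm hi hp hq (x := (i + 1) ^ (3 * q)) (Nat.one_le_pow _ _ (by omega)) hz0 hz1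
    refine h1.trans (ENNReal.ofReal_le_ofReal ?_)
    set x := (i + 1) ^ (3 * q) with hx
    set L := Nat.log 2 x with hL
    set e := L / q with he
    have hx0 : x ≠ 0 := by rw [hx]; positivity
    have hxL : 2 ^ L ≤ x := Nat.pow_log_le_self 2 hx0
    have hxU : x < 2 ^ (L + 1) := Nat.lt_pow_succ_log_self (by norm_num) x
    have hL1 : L + 1 ≤ q * (e + 1) := by
      have := Nat.lt_mul_div_succ L (by omega : 0 < q)
      rw [← he] at this
      exact this
    have h2 : (i + 1) ^ 3 ≤ 2 ^ (e + 1) := by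
      have h3 : ((i + 1) ^ 3) ^ q < (2 ^ (e + 1)) ^ q := by
        calc ((i + 1) ^ 3) ^ q = x := by rw [hx, pow_mul]
          _ < 2 ^ (L + 1) := hxU
          _ ≤ 2 ^ (q * (e + 1)) := Nat.pow_le_pow_right (by norm_num) hL1
          _ = (2 ^ (e + 1)) ^ q := by rw [← pow_mul, mul_comm]
      exact (lt_of_pow_lt_pow_left₀ q (by positivity) h3).le
    have h3 : L ≤ 3 * q * i := by
      have h4 : i + 1 ≤ 2 ^ i := Nat.lt_two_pow_self
      have h5 : 2 ^ L ≤ 2 ^ (3 * q * i) := by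
        calc 2 ^ L ≤ (i + 1) ^ (3 * q) := hxL
          _ ≤ (2 ^ i) ^ (3 * q) := Nat.pow_le_pow_left h4 _
          _ = 2 ^ (3 * q * i) := by rw [← pow_mul, mul_comm]
      exact (Nat.pow_le_pow_iff_right (by norm_num)).mp h5
    have h4 : (L : ℝ) + 1 ≤ 3 * q * (i + 1) := by
      have : L + 1 ≤ 3 * q * (i + 1) := by nlinarith
      exact_mod_cast this
    have h5 : ((i : ℝ) + 1) ^ 3 / 2 ≤ 2 ^ e := by
      have : (((i + 1) ^ 3 : ℕ) : ℝ) ≤ ((2 ^ (e + 1) : ℕ) : ℝ) := by exact_mod_cast h2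
      push_cast at this
      rw [pow_succ (2 : ℝ)] at this
      linarith
    have hi0 : (0 : ℝ) < (i : ℝ) + 1 := by positivity
    have hq0 : (0 : ℝ) < q := by exact_mod_cast hq
    calc 2 * (q : ℝ) ^ 2 * ((L : ℝ) + 1) / 2 ^ e
        ≤ 2 * (q : ℝ) ^ 2 * (3 * q * (i + 1)) / (((i : ℝ) + 1) ^ 3 / 2) := by
          refine div_le_div₀ (by positivity) ?_ (by positivity) h5
          exact mul_le_mul_of_nonneg_left h4 (by positivity)
      _ = 12 * (q : ℝ) ^ 3 * (1 / ((i : ℝ) + 1) ^ 2) := by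
          field_simp; norm_num
  have hsum : ∑' i, μ (s i) ≠ ⊤ := by
    have hS : Summable (fun i : ℕ => 12 * (q : ℝ) ^ 3 * (1 / ((i : ℝ) + 1) ^ 2)) := by
      refine Summable.mul_left _ ?_
      have h := (summable_nat_add_iff (f := fun n : ℕ => 1 / (n : ℝ) ^ 2) 1).mpr
        (Real.summable_one_div_nat_pow.mpr (by norm_num))
      refine h.congr (fun i => ?_)
      push_cast; rfl
    have h1 : ∑' i, μ (s i) ≤ ∑' i : ℕ, ENNReal.ofReal (12 * (q : ℝ) ^ 3 * (1 / ((i : ℝ) + 1) ^ 2)) :=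
      ENNReal.tsum_le_tsum hb
    rw [← ENNReal.ofReal_tsum_of_nonneg (fun i => by positivity) hS] at h1
    exact ne_top_of_le_ne_top ENNReal.ofReal_ne_top h1
  filter_upwards [ae_eventually_notMem hsum] with ω hω
  filter_upwards [hω] with i hi1
  intro x hx
  subst hx
  by_contra hcon
  exact hi1 hcon

/-- almost surely the generating sum is close to its expected size along the sparse sequence -/
theorem ae_sparse2 {p : ℕ → ℝ} (hd : PL p) {E : ℕ → Set Ω} (hm : ∀ m, MeasurableSet (E m))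
    (hi : iIndepSet E μ) (hp : ∀ m, 1 ≤ m → μ (E m) = ENNReal.ofReal (p m)) {q : ℕ}
    (hq : 8 ≤ q) {z : ℝ} (hz0 : 0 ≤ z) (hz1 : z ≤ 1) :
    ∀ᵐ ω ∂μ, ∀ᶠ i : ℕ in atTop,
      |Sg (Rs E ω) ((i + 1) ^ (3 * q)) z - (((i + 1) ^ (3 * q) : ℕ) : ℝ) * (2 : ℝ) ^ (z - 1)|
        ≤ (((i + 1) ^ (3 * q) : ℕ) : ℝ) * (108 / q) := by
  obtain ⟨N1, hN1⟩ := asym_mean2 hd hq
  filter_upwards [ae_conc2 hd hm hi hp (by omega : 1 ≤ q) hz0 hz1, ae_RB2 hd hm hi hp] with ω h1 h2
  obtain ⟨j0, hj0⟩ := h2.exists_forall_of_atTop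
  obtain ⟨N2, hN2⟩ := deter_bound hq hj0
  filter_upwards [h1, eventually_ge_atTop (2 ^ N1), eventually_ge_atTop (2 ^ N2)] with i b1 b2 b3
  set x := (i + 1) ^ (3 * q) with hx
  have hxi : i ≤ x := by
    have : i + 1 ≤ (i + 1) ^ (3 * q) := Nat.le_self_pow (by omega) _
    omega
  have hx1 : 1 ≤ x := Nat.one_le_pow _ _ (by omega)
  have c1 := b1 x rfl
  have c2 := hN1 x (by omega) z hz0 hz1 (WL (Nat.log 2 x)) block_sub_WL
  have c3 := hN2 x (by omega) z hz0 hz1
  rw [← Sg_eq, RA_eq_trunc hx1, XS_trunc (fun m hm => by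
    have h := (mem_Rf.mp hm).1
    unfold WL at h
    exact (Finset.mem_Icc.mp h).1)] at c3
  set X := XS (eL q (Nat.log 2 x)) (JL q (Nat.log 2 x)) (Nat.log 2 x) x z
          (Rf (WL (Nat.log 2 x)) (Rs E ω))
  set c := Ex p (WL (Nat.log 2 x))
          (XS (eL q (Nat.log 2 x)) (JL q (Nat.log 2 x)) (Nat.log 2 x) x z)
  have e1 : Sg (Rs E ω) x z - x * (2 : ℝ) ^ (z - 1)
      = (Sg (Rs E ω) x z - X) + ((X - c) + (c - x * (2 : ℝ) ^ (z - 1))) := by ring
  rw [e1]
  refine (abs_add_le _ _).trans ?_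
  have e2 := abs_add_le (X - c) (c - x * (2 : ℝ) ^ (z - 1))
  have e3 : (x : ℝ) * (108 / q) = x * (98 / q) + (x / q + x * (9 / q)) := by ring
  rw [e3]
  linarith

end Pool.Agent.helper306_cramer2
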