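import Pool.Agent.helper306_cramer2.Mean2
import Pool.Agent.helper306_cramer.Asym

/-!
# Asymptotics of the mean, for general densities
-/

namespace Pool.Agent.helper306_cramer2

open Finset Filter Topology Pool.Agent.helper306_cramer

/-- the probabilities are asymptotic to `1 / log m` -/
structure PL (p : ℕ → ℝ) : Prop where
  nonneg : ∀ m, 0 ≤ p m
  le_one : ∀ m, p m ≤ 1
  lim : Tendsto (fun m : ℕ => p m * Real.log m) atTop (𝓝 1)

/-- bounds on dyadic intervals -/
lemma PL.near {p : ℕ → ℝ} (h : PL p) {δ : ℝ} (hδ : 0 < δ) (hδ1 : δ ≤ 1) :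
    ∃ N : ℕ, 1 ≤ N ∧ ∀ j, N ≤ j → ∀ m, 2 ^ j ≤ m → m < 2 ^ (j + 1) →
      (1 - δ) / (j * Real.log 2) ≤ p m ∧ p m ≤ (1 + δ) / (j * Real.log 2) * (1 - p m) ∧
      p m ≤ 2 / j := by
  have h1 : ∀ᶠ m : ℕ in atTop, |p m * Real.log m - 1| < δ / 4 := by
    have := Metric.tendsto_nhds.mp h.lim (δ / 4) (by positivity)
    simpa [Real.dist_eq] using this
  obtain ⟨M, hM⟩ := h1.exists_forall_of_atTop
  obtain ⟨N1, hN1⟩ := exists_nat_ge (8 / δ)
  refine ⟨max (max M N1) 8, by omega, fun j hj m hm1 hm2 => ?_⟩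
  have hjM : M ≤ j := le_trans (le_trans (le_max_left _ _) (le_max_left _ _)) hj
  have hjN : N1 ≤ j := le_trans (le_trans (le_max_right _ _) (le_max_left _ _)) hj
  have hj8 : 8 ≤ j := le_trans (le_max_right _ _) hj
  have hmM : M ≤ m := by
    have : j < 2 ^ j := Nat.lt_two_pow_self
    omega
  have h2 := hM m hmM
  rw [abs_lt] at h2
  have hl2 : 0.69 < Real.log 2 := by have := Real.log_two_gt_d9; linarith
  have hl2' : Real.log 2 < 0.7 := by have := Real.log_two_lt_d9; linarith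
  have hj0 : (8 : ℝ) ≤ j := by exact_mod_cast hj8
  have hjd : 8 / δ ≤ j := hN1.trans (by exact_mod_cast hjN)
  rw [div_le_iff₀ hδ] at hjd
  have hm0 : (0 : ℝ) < m := by
    have : 0 < 2 ^ j := by positivity
    have : 0 < m := by omega
    exact_mod_cast this
  have hlow : j * Real.log 2 ≤ Real.log m := by
    rw [← Real.log_pow]
    exact Real.log_le_log (by positivity) (by exact_mod_cast hm1)
  have hup : Real.log m ≤ (j + 1) * Real.log 2 := by
    have : Real.log m ≤ Real.log (2 ^ (j + 1)) :=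
      Real.log_le_log hm0 (by exact_mod_cast hm2.le)
    rw [Real.log_pow] at this
    push_cast at this
    exact this
  have hp0 := h.nonneg m
  have hjl : 0 < j * Real.log 2 := by positivity
  have hp1 : p m * (j * Real.log 2) ≤ 1 + δ / 4 := by
    have : p m * (j * Real.log 2) ≤ p m * Real.log m := mul_le_mul_of_nonneg_left hlow hp0
    linarith [h2.2]
  have hp2 : 1 - δ / 4 ≤ p m * ((j + 1) * Real.log 2) := by
    have : p m * Real.log m ≤ p m * ((j + 1) * Real.log 2) := mul_le_mul_of_nonneg_left hup hp0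
    linarith [h2.1]
  have hp3 : p m * j ≤ 2 := by
    have : p m * j * 0.69 ≤ p m * (j * Real.log 2) := by
      have : 0 ≤ p m * j := by positivity
      nlinarith
    nlinarith
  have hp4 : p m ≤ δ / 4 := by
    have h5 : p m * 8 ≤ p m * (j * δ) := mul_le_mul_of_nonneg_left hjd hp0
    have h6 : p m * (j * δ) ≤ 2 * δ := by
      calc p m * (j * δ) = (p m * j) * δ := by ring
        _ ≤ 2 * δ := mul_le_mul_of_nonneg_right hp3 hδ.le
    linarith
  refine ⟨?_, ?_, ?_⟩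
  · rw [div_le_iff₀ hjl]
    have e1 : p m * ((j + 1) * Real.log 2) = p m * (j * Real.log 2) + p m * Real.log 2 := by ring
    rw [e1] at hp2
    have : p m * Real.log 2 ≤ p m * 1 := mul_le_mul_of_nonneg_left (by linarith) hp0
    linarith
  · rw [div_mul_eq_mul_div, le_div_iff₀ hjl]
    refine hp1.trans ?_
    have h5 : (1 + δ) * (1 - δ / 4) ≤ (1 + δ) * (1 - p m) :=
      mul_le_mul_of_nonneg_left (by linarith) (by linarith)
    refine le_trans ?_ h5
    nlinarith
  · rw [le_div_iff₀ (by linarith)]; exact hp3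

/-- the mean of the generating sum, asymptotically -/
theorem asym_mean2 {p : ℕ → ℝ} (hd : PL p) {q : ℕ} (hq : 8 ≤ q) :
    ∃ N : ℕ, ∀ x : ℕ, 2 ^ N ≤ x → ∀ z : ℝ, 0 ≤ z → z ≤ 1 → ∀ W : Finset ℕ,
      (∀ s ∈ SS (eL q (Nat.log 2 x)) (JL q (Nat.log 2 x)) (Nat.log 2 x),
        Ib (eL q (Nat.log 2 x)) s ⊆ W) →
      |Ex p W (XS (eL q (Nat.log 2 x)) (JL q (Nat.log 2 x)) (Nat.log 2 x) x z)
        - x * (2 : ℝ) ^ (z - 1)| ≤ x * (9 / q) := by
  have hq0 : (0 : ℝ) < q := by exact_mod_cast (by omega : 0 < q)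
  have hq8 : (8 : ℝ) ≤ q := by exact_mod_cast hq
  -- small parameters
  set δ : ℝ := 1 / (300 * q) with hδ
  have hδ0 : 0 < δ := by positivity
  have hδ1 : δ ≤ 1 / 2400 := by
    rw [hδ]
    refine one_div_le_one_div_of_le (by norm_num) ?_
    linarith
  obtain ⟨N0, hN01, hN0⟩ := hd.near hδ0 (by linarith)
  have hT1 : Tendsto (fun L : ℕ => (2 : ℝ) / (JL q L : ℝ)) atTop (𝓝 0) := by
    refine Tendsto.div_atTop tendsto_const_nhds ?_
    refine tendsto_natCast_atTop_atTop.comp ?_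
    refine tendsto_atTop_mono (fun L => ?_) (tendsto_div_atTop (q := 2) (by norm_num))
    unfold JL; omega
  have hB : ∀ᶠ L : ℕ in atTop, (2 : ℝ) / (JL q L : ℝ) < δ := hT1.eventually (gt_mem_nhds hδ0)
  have hT2 : Tendsto (fun L : ℕ => (36 * (q : ℝ) ^ 2) / (2 : ℝ) ^ (2 * (L / q))) atTop (𝓝 0) := by
    refine Tendsto.div_atTop tendsto_const_nhds ?_
    refine (tendsto_pow_atTop_atTop_of_one_lt (by norm_num : (1 : ℝ) < 2)).comp ?_
    refine tendsto_atTop_mono (fun L => ?_) (tendsto_div_atTop (q := q) (by omega))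
    omega
  have hC : ∀ᶠ L : ℕ in atTop, (36 * (q : ℝ) ^ 2) / (2 : ℝ) ^ (2 * (L / q)) < δ :=
    hT2.eventually (gt_mem_nhds hδ0)
  have hT3 : Tendsto (fun L : ℕ => (1 : ℝ) / (2 : ℝ) ^ (L / q)) atTop (𝓝 0) := by
    refine Tendsto.div_atTop tendsto_const_nhds ?_
    exact (tendsto_pow_atTop_atTop_of_one_lt (by norm_num : (1 : ℝ) < 2)).comp
      (tendsto_div_atTop (q := q) (by omega))
  have hD : ∀ᶠ L : ℕ in atTop, (1 : ℝ) / (2 : ℝ) ^ (L / q) < δ := hT3.eventually (gt_mem_nhds hδ0)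
  obtain ⟨N1, hN1⟩ := ((hB.and (hC.and hD)).and
    ((eventually_ge_atTop (2 * N0 + 2)).and (eventually_ge_atTop q))).exists_forall_of_atTop
  refine ⟨N1, fun x hx z hz0 hz1 W hW => ?_⟩
  set L := Nat.log 2 x with hLdef
  have hx0 : x ≠ 0 := by
    have : 0 < 2 ^ N1 := by positivity
    omega
  have hNL : N1 ≤ L := Nat.le_log_of_pow_le (by norm_num) hx
  obtain ⟨⟨a2, a3, a4⟩, a5, a6⟩ := hN1 L hNL
  have hxL : 2 ^ L ≤ x := Nat.pow_log_le_self 2 hx0
  have hxU : x < 2 ^ (L + 1) := Nat.lt_pow_succ_log_self (by norm_num) x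
  set rho : ℝ := 2 / (JL q L : ℝ) with hrho
  have hJN0 : N0 ≤ JL q L := by unfold JL; omega
  have hJpos : (0 : ℝ) < JL q L := by
    have : 0 < JL q L := by omega
    exact_mod_cast this
  have hl2 : 0.69 < Real.log 2 := by have := Real.log_two_gt_d9; linarith
  have hl2' : Real.log 2 < 0.7 := by have := Real.log_two_lt_d9; linarith
  have hr0 : 0 < rho := by positivity
  have hr1 : rho ≤ 1 := by linarith
  set cu : ℕ → ℝ := fun j => (1 + δ) / (j * Real.log 2) with hcu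
  set cl : ℕ → ℝ := fun j => (1 - δ) / (j * Real.log 2) with hcl
  have hjpos : ∀ j, JL q L ≤ j → (0 : ℝ) < j := by
    intro j hj
    have : 0 < j := by omega
    exact_mod_cast this
  have hCB : CB p cu cl rho (JL q L) := by
    refine ⟨hd.nonneg, hd.le_one, ?_, ?_, ?_, ?_, ?_⟩
    · intro j hj m h1 h2; exact (hN0 j (by omega) m h1 h2).2.1
    · intro j hj m h1 h2; exact (hN0 j (by omega) m h1 h2).1
    · intro j hj
      have hj0 := hjpos j hj
      simp only [hcu]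
      rw [hrho, div_le_div_iff₀ (by positivity) hJpos]
      have : (JL q L : ℝ) ≤ j := by exact_mod_cast hj
      nlinarith
    · intro j hj
      have hj0 := hjpos j hj
      simp only [hcl]
      exact div_pos (by linarith) (by positivity)
    · intro j hj
      have hj0 := hjpos j hj
      simp only [hcl, hcu]
      rw [← mul_div_assoc]
      exact div_le_div_of_nonneg_right (by linarith) (by positivity)
  have hmain := XS_mean2 hCB hr1 (eL_le_JL q L) hxL hz0 hz1 hW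
  refine hmain.trans ?_
  have hlast := last_term (q := q) (by omega) hxL hxU
  obtain ⟨b1, b2⟩ := harm_JL hq a6
  set H := ∑ j ∈ Finset.Icc (JL q L) L, 1 / (j : ℝ) with hH
  have e1 : Real.log 2 * ∑ j ∈ Finset.Icc (JL q L) L, cu j = (1 + δ) * H := by
    rw [hH, Finset.mul_sum, Finset.mul_sum]
    refine Finset.sum_congr rfl (fun j hj => ?_)
    have hj0 := hjpos j (Finset.mem_Icc.mp hj).1
    simp only [hcu]
    field_simp
  have e2 : Real.log 2 * ∑ j ∈ Finset.Icc (JL q L) L, cl j = (1 - δ) * H := by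
    rw [hH, Finset.mul_sum, Finset.mul_sum]
    refine Finset.sum_congr rfl (fun j hj => ?_)
    have hj0 := hjpos j (Finset.mem_Icc.mp hj).1
    simp only [hcl]
    field_simp
  rw [e1, e2]
  have hH0 : 0 ≤ H := Finset.sum_nonneg (fun j _ => by positivity)
  have hx0' : (0 : ℝ) < x := by exact_mod_cast Nat.pos_of_ne_zero hx0
  have h8q : (8 : ℝ) / q ≤ 1 := by rw [div_le_one hq0]; exact hq8
  have hcl1 : ∑ j ∈ Finset.Icc (JL q L) L, cl j ≤ 1 := by
    have : 0.69 * ∑ j ∈ Finset.Icc (JL q L) L, cl j ≤ (1 - δ) * H := by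
      rw [← e2]
      refine mul_le_mul_of_nonneg_right hl2.le (Finset.sum_nonneg (fun j hj => ?_))
      exact (hCB.cl_pos j (Finset.mem_Icc.mp hj).1).le
    nlinarith [Real.log_two_lt_d9, Real.log_two_gt_d9]
  have hcl0 : 0 ≤ ∑ j ∈ Finset.Icc (JL q L) L, cl j :=
    Finset.sum_nonneg (fun j hj => (hCB.cl_pos j (Finset.mem_Icc.mp hj).1).le)
  have hH1 : H ≤ 1 := by linarith
  have hδH : δ * H ≤ δ := by nlinarith
  have hδH0 : 0 ≤ δ * H := by positivity
  have c1 : 30 * rho * ((1 + δ) * H + 16 * rho) ≤ 60 * δ := by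
    have d1 : (1 + δ) * H + 16 * rho ≤ 2 := by nlinarith
    have d2 : 0 ≤ (1 + δ) * H + 16 * rho := by positivity
    nlinarith
  have c2 : (1 + δ) * H - (1 - δ) * H ≤ 2 * δ := by nlinarith
  have c3 : 18 * rho ≤ 18 * δ := by linarith
  have c4 : (∑ j ∈ Finset.Icc (JL q L) L, cl j) / 2 ^ (eL q L) ≤ δ := by
    unfold eL
    have : (∑ j ∈ Finset.Icc (JL q L) L, cl j) / 2 ^ (L / q)
        = (∑ j ∈ Finset.Icc (JL q L) L, cl j) * (1 / 2 ^ (L / q)) := by ring
    rw [this]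
    have d1 : (0 : ℝ) ≤ 1 / 2 ^ (L / q) := by positivity
    nlinarith
  have c5 : |(1 + δ) * H + 16 * rho - Real.log 2| ≤ 8 / q + 17 * δ := by
    rw [abs_le]
    constructor
    · have : 0 ≤ 8 / (q : ℝ) := by positivity
      nlinarith
    · have : 0 ≤ 8 / (q : ℝ) := by positivity
      nlinarith
  have c6 : 36 * rho * (L + 1) / 2 ^ (eL q L) ≤ 144 * δ := by
    have d1 : rho * (L + 1) ≤ 4 := by
      rw [hrho, div_mul_eq_mul_div, div_le_iff₀ hJpos]
      have : L + 1 ≤ 2 * JL q L := by unfold JL; omega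
      have : ((L : ℝ) + 1) ≤ 2 * JL q L := by exact_mod_cast this
      linarith
    unfold eL
    have : 36 * rho * (L + 1) / 2 ^ (L / q) = 36 * (rho * (L + 1)) * (1 / 2 ^ (L / q)) := by ring
    rw [this]
    have d2 : (0 : ℝ) ≤ 1 / 2 ^ (L / q) := by positivity
    have d3 : 0 ≤ rho * ((L : ℝ) + 1) := by positivity
    nlinarith
  have c7 : ((L : ℝ) + 1) * 2 ^ (eL q L) * ((x : ℝ) / 2 ^ (JL q L)) ^ 2 ≤ x * δ := by
    have d1 : 0 ≤ ((L : ℝ) + 1) * 2 ^ (eL q L) * ((x : ℝ) / 2 ^ (JL q L)) ^ 2 := by positivity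
    have d2 : 0 ≤ Real.log x := Real.log_natCast_nonneg x
    have d3 : (x : ℝ) * (36 * (q : ℝ) ^ 2 / 2 ^ (2 * (L / q))) ≤ x * δ :=
      mul_le_mul_of_nonneg_left a3.le hx0'.le
    nlinarith
  have c8 : 8 / q + 243 * δ ≤ 9 / q := by
    rw [hδ]
    have : (243 : ℝ) * (1 / (300 * q)) = (243 / 300) * (1 / q) := by field_simp
    rw [this]
    have h9 : (9 : ℝ) / q = 8 / q + 1 / q := by ring
    rw [h9]
    have : (0 : ℝ) < 1 / q := by positivity
    linarith
  calc (x : ℝ) * (30 * rho * ((1 + δ) * H + 16 * rho) + ((1 + δ) * H - (1 - δ) * H) + 18 * rho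
          + (∑ j ∈ Finset.Icc (JL q L) L, cl j) / 2 ^ (eL q L)
          + |(1 + δ) * H + 16 * rho - Real.log 2| + 36 * rho * (L + 1) / 2 ^ (eL q L))
        + ((L : ℝ) + 1) * 2 ^ (eL q L) * ((x : ℝ) / 2 ^ (JL q L)) ^ 2
      ≤ x * (60 * δ + 2 * δ + 18 * δ + δ + (8 / q + 17 * δ) + 144 * δ) + x * δ := by
        refine add_le_add (mul_le_mul_of_nonneg_left (by linarith) hx0'.le) c7
    _ = x * (8 / q + 243 * δ) := by ring
    _ ≤ x * (9 / q) := mul_le_mul_of_nonneg_left c8 hx0'.le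

end Pool.Agent.helper306_cramer2
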