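import Pool.Agent.helper306_cramer2.OneSize

/-!
# Intersecting windows with equal sums
-/

namespace Pool.Agent.helper306_cramer2

open Finset Pool.Agent.helper306_cramer

/-- elements in `[a, a')` -/
def Hd (A : Finset ℕ) (a a' : ℕ) : Finset ℕ := A ∩ Finset.Ico a a'

/-- elements in `(b, b']` -/
def Tl (A : Finset ℕ) (b b' : ℕ) : Finset ℕ := A ∩ Finset.Ioc b b'

lemma mem_Hd {A : Finset ℕ} {a a' x : ℕ} : x ∈ Hd A a a' ↔ x ∈ A ∧ a ≤ x ∧ x < a' := by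
  unfold Hd; rw [Finset.mem_inter, Finset.mem_Ico]

lemma mem_Tl {A : Finset ℕ} {b b' x : ℕ} : x ∈ Tl A b b' ↔ x ∈ A ∧ b < x ∧ x ≤ b' := by
  unfold Tl; rw [Finset.mem_inter, Finset.mem_Ioc]

/-- the quadruples counted by `inn` -/
def Qd (A : Finset ℕ) (x : ℕ) : Finset ((ℕ × ℕ) × (ℕ × ℕ)) :=
  ((A ×ˢ A) ×ˢ (A ×ˢ A)).filter (fun q => q.1.1 < q.1.2 ∧ q.1.2 ≤ q.2.1 ∧ q.2.1 < q.2.2 ∧
    ∑ m ∈ sg A q.1.1 q.2.1, m = ∑ m ∈ sg A q.1.2 q.2.2, m ∧ ∑ m ∈ sg A q.1.1 q.2.1, m ≤ x)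

lemma inn_eq (A : Finset ℕ) (x : ℕ) : inn A x = (Qd A x).card := rfl

lemma mem_Qd {A : Finset ℕ} {x : ℕ} {q : (ℕ × ℕ) × (ℕ × ℕ)} : q ∈ Qd A x ↔
    ((q.1.1 ∈ A ∧ q.1.2 ∈ A) ∧ (q.2.1 ∈ A ∧ q.2.2 ∈ A)) ∧ q.1.1 < q.1.2 ∧ q.1.2 ≤ q.2.1 ∧
      q.2.1 < q.2.2 ∧ ∑ m ∈ sg A q.1.1 q.2.1, m = ∑ m ∈ sg A q.1.2 q.2.2, m ∧
        ∑ m ∈ sg A q.1.1 q.2.1, m ≤ x := by
  unfold Qd
  rw [Finset.mem_filter, Finset.mem_product, Finset.mem_product, Finset.mem_product]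

lemma sum_head {A : Finset ℕ} {a a' b : ℕ} (h1 : a < a') (h2 : a' ≤ b) :
    ∑ m ∈ sg A a b, m = ∑ m ∈ Hd A a a', m + ∑ m ∈ sg A a' b, m := by
  rw [← Finset.sum_union]
  · congr 1
    ext x
    rw [Finset.mem_union, mem_Hd, mem_sg, mem_sg]
    constructor
    · rintro ⟨h3, h4, h5⟩
      rcases Nat.lt_or_ge x a' with h | h
      · exact Or.inl ⟨h3, h4, h⟩
      · exact Or.inr ⟨h3, h, h5⟩
    · rintro (⟨h3, h4, h5⟩ | ⟨h3, h4, h5⟩)
      · exact ⟨h3, h4, by omega⟩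
      · exact ⟨h3, by omega, h5⟩
  · rw [Finset.disjoint_left]
    intro x h3 h4
    rw [mem_Hd] at h3
    rw [mem_sg] at h4
    omega

lemma sum_tail {A : Finset ℕ} {a' b b' : ℕ} (h1 : a' ≤ b) (h2 : b < b') :
    ∑ m ∈ sg A a' b', m = ∑ m ∈ sg A a' b, m + ∑ m ∈ Tl A b b', m := by
  rw [← Finset.sum_union]
  · congr 1
    ext x
    rw [Finset.mem_union, mem_Tl, mem_sg, mem_sg]
    constructor
    · rintro ⟨h3, h4, h5⟩
      rcases Nat.lt_or_ge b x with h | h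
      · exact Or.inr ⟨h3, h, h5⟩
      · exact Or.inl ⟨h3, h4, h⟩
    · rintro (⟨h3, h4, h5⟩ | ⟨h3, h4, h5⟩)
      · exact ⟨h3, h4, by omega⟩
      · exact ⟨h3, by omega, h5⟩
  · rw [Finset.disjoint_left]
    intro x h3 h4
    rw [mem_Tl] at h4
    rw [mem_sg] at h3
    omega

lemma Qd_sums {A : Finset ℕ} {x : ℕ} {q : (ℕ × ℕ) × (ℕ × ℕ)} (hq : q ∈ Qd A x) :
    ∑ m ∈ Hd A q.1.1 q.1.2, m = ∑ m ∈ Tl A q.2.1 q.2.2, m ∧ ∑ m ∈ Hd A q.1.1 q.1.2, m ≤ x := by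
  rw [mem_Qd] at hq
  obtain ⟨_, h1, h2, h3, h4, h5⟩ := hq
  rw [sum_head h1 h2, sum_tail h2 h3] at h4
  rw [sum_head h1 h2] at h5
  constructor
  · omega
  · omega

/-- the head has more elements than the tail -/
lemma card_tail_lt {A : Finset ℕ} {a a' b b' : ℕ} (h2 : a' ≤ b)
    (h : ∑ m ∈ Hd A a a', m = ∑ m ∈ Tl A b b', m) (hne : (Tl A b b').Nonempty) :
    (Tl A b b').card < (Hd A a a').card := by
  by_contra hcon
  push Not at hcon
  have e1 : ∑ m ∈ Hd A a a', m ≤ (Hd A a a').card * b := by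
    have := Finset.sum_le_card_nsmul (Hd A a a') (fun m => m) b (fun m hm => by
      have := mem_Hd.mp hm; show m ≤ b; omega)
    rwa [smul_eq_mul] at this
  have e2 : (Tl A b b').card * (b + 1) ≤ ∑ m ∈ Tl A b b', m := by
    have := Finset.card_nsmul_le_sum (Tl A b b') (fun m => m) (b + 1) (fun m hm => by
      have := mem_Tl.mp hm; show b + 1 ≤ m; omega)
    rwa [smul_eq_mul] at this
  have e3 : 0 < (Tl A b b').card := Finset.card_pos.mpr hne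
  nlinarith

lemma Qd_card {A : Finset ℕ} {x : ℕ} {q : (ℕ × ℕ) × (ℕ × ℕ)} (hq : q ∈ Qd A x) :
    2 ≤ (Hd A q.1.1 q.1.2).card := by
  have h1 := Qd_sums hq
  rw [mem_Qd] at hq
  have hne : (Tl A q.2.1 q.2.2).Nonempty := ⟨q.2.2, mem_Tl.mpr ⟨hq.1.2.2, hq.2.2.2.1, le_rfl⟩⟩
  have h2 := card_tail_lt hq.2.2.1 h1.1 hne
  have h3 := Finset.card_pos.mpr hne
  omega

lemma Hd_filter {A : Finset ℕ} {a a' : ℕ} (ha : a ∈ A) (haa : a < a') :
    (A.filter (fun m => a < m ∧ m < a')).card + 1 = (Hd A a a').card := by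
  have h1 : A.filter (fun m => a < m ∧ m < a') = (Hd A a a').erase a := by
    ext x
    rw [Finset.mem_filter, Finset.mem_erase, mem_Hd]
    constructor
    · rintro ⟨h1, h2, h3⟩; exact ⟨by omega, h1, by omega, h3⟩
    · rintro ⟨h1, h2, h3, h4⟩; exact ⟨h2, by omega, h4⟩
  have h2 : a ∈ Hd A a a' := mem_Hd.mpr ⟨ha, le_rfl, haa⟩
  rw [h1, Finset.card_erase_of_mem h2]
  have := Finset.card_pos.mpr ⟨a, h2⟩
  omega

lemma Hd_insert {A : Finset ℕ} {m a a' : ℕ} (h1 : a ≤ m) (h2 : m < a') :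
    Hd (insert m A) a a' = insert m (Hd A a a') := by
  ext x
  rw [mem_Hd, Finset.mem_insert, Finset.mem_insert, mem_Hd]
  constructor
  · rintro ⟨h3 | h3, h4, h5⟩
    · exact Or.inl h3
    · exact Or.inr ⟨h3, h4, h5⟩
  · rintro (h3 | ⟨h3, h4, h5⟩)
    · subst h3; exact ⟨Or.inl rfl, h1, h2⟩
    · exact ⟨Or.inr h3, h4, h5⟩

lemma notMem_Hd {A : Finset ℕ} {m a a' : ℕ} (h : m ∉ A) : m ∉ Hd A a a' := fun h' => h (mem_Hd.mp h').1

lemma Tl_insert {A : Finset ℕ} {m b b' : ℕ} (h : m ≤ b) : Tl (insert m A) b b' = Tl A b b' := by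
  ext x
  rw [mem_Tl, mem_Tl, Finset.mem_insert]
  constructor
  · rintro ⟨h3 | h3, h4, h5⟩
    · omega
    · exact ⟨h3, h4, h5⟩
  · rintro ⟨h3, h4, h5⟩; exact ⟨Or.inr h3, h4, h5⟩

/-- possible sizes of the tail -/
def Js (y L u : ℕ) : Finset ℕ := (Finset.range (u + 1)).filter (fun j => (u + 1) * y < j * (y + L))

lemma mem_Js {y L u j : ℕ} : j ∈ Js y L u ↔ j < u + 1 ∧ (u + 1) * y < j * (y + L) := by
  unfold Js; rw [Finset.mem_filter, Finset.mem_range]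

lemma card_Js (y L u : ℕ) : (Js y L u).card * y ≤ (u + 1) * L := by
  rcases (Js y L u).eq_empty_or_nonempty with h | h
  · rw [h]; simp
  · set j1 := (Js y L u).min' h with hj1
    have h1 := mem_Js.mp ((Js y L u).min'_mem h)
    rw [← hj1] at h1
    have h2 : Js y L u ⊆ Finset.Ico j1 (u + 1) := by
      intro j hj
      rw [Finset.mem_Ico]
      exact ⟨Finset.min'_le _ _ hj, (mem_Js.mp hj).1⟩
    have h3 := Finset.card_le_card h2
    rw [Nat.card_Ico] at h3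
    have h4 : (Js y L u).card + j1 ≤ u + 1 := by omega
    have h5 : ((Js y L u).card + j1) * (y + L) ≤ (u + 1) * (y + L) := Nat.mul_le_mul_right _ h4
    have h6 : (Js y L u).card * y ≤ (Js y L u).card * (y + L) := Nat.mul_le_mul_left _ (by omega)
    nlinarith

/-- pairs `(a, a')` with few elements in between -/
def Pk (A : Finset ℕ) (K : ℕ) : Finset (ℕ × ℕ) :=
  (A ×ˢ A).filter (fun s => s.1 < s.2 ∧ (Hd A s.1 s.2).card ≤ K)

lemma mem_Pk {A : Finset ℕ} {K : ℕ} {s : ℕ × ℕ} :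
    s ∈ Pk A K ↔ (s.1 ∈ A ∧ s.2 ∈ A) ∧ s.1 < s.2 ∧ (Hd A s.1 s.2).card ≤ K := by
  unfold Pk; rw [Finset.mem_filter, Finset.mem_product]

lemma Hd_strict {A : Finset ℕ} {a u v : ℕ} (hu : u ∈ A) (hau : a ≤ u) (huv : u < v) :
    (Hd A a u).card < (Hd A a v).card := by
  refine Finset.card_lt_card ?_
  rw [Finset.ssubset_iff_of_subset]
  · exact ⟨u, mem_Hd.mpr ⟨hu, hau, huv⟩, fun h => by have := (mem_Hd.mp h).2.2; omega⟩
  · intro x hx
    rw [mem_Hd] at hx ⊢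
    exact ⟨hx.1, hx.2.1, by omega⟩

lemma card_Pk (A : Finset ℕ) (K : ℕ) : (Pk A K).card ≤ A.card * K := by
  classical
  have h1 : (Pk A K).card ≤ (A ×ˢ Finset.Icc 1 K).card := by
    refine Finset.card_le_card_of_injOn (fun s => (s.1, (Hd A s.1 s.2).card)) ?_ ?_
    · rintro ⟨a, a'⟩ hs
      rw [Finset.mem_coe, mem_Pk] at hs
      rw [Finset.mem_coe, Finset.mem_product, Finset.mem_Icc]
      refine ⟨hs.1.1, ?_, hs.2.2⟩
      exact Finset.card_pos.mpr ⟨a, mem_Hd.mpr ⟨hs.1.1, le_rfl, hs.2.1⟩⟩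
    · rintro ⟨a, a'⟩ hs ⟨b, b'⟩ hs' he
      rw [Finset.mem_coe, mem_Pk] at hs hs'
      simp only [Prod.mk.injEq] at he
      obtain ⟨e1, e2⟩ := he
      subst e1
      simp only at hs hs' e2
      have : a' = b' := by
        rcases Nat.lt_trichotomy a' b' with h | h | h
        · have := Hd_strict (A := A) (a := a) hs.1.2 hs.2.1.le h; omega
        · exact h
        · have := Hd_strict (A := A) (a := a) hs'.1.2 hs'.2.1.le h; omega
      rw [this]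
  rwa [Finset.card_product, Nat.card_Icc, Nat.add_sub_cancel] at h1

lemma tl_shift {A : Finset ℕ} {b1 b1' b2 b2' : ℕ} (h1 : b1' ∈ A) (h2 : b2 ∈ A) (h2' : b2' ∈ A)
    (hb1 : b1 < b1') (hb2 : b2 < b2') (h : b1 < b2) (hc : (Tl A b1 b1').card = (Tl A b2 b2').card) :
    ∑ x ∈ Tl A b1 b1', x + (Tl A b1 b1').card ≤ ∑ x ∈ Tl A b2 b2', x := by
  have hbb : b1' < b2' := by
    by_contra hcon
    push Not at hcon
    have : Tl A b2 b2' ⊂ Tl A b1 b1' := by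
      rw [Finset.ssubset_iff_of_subset]
      · exact ⟨b2, mem_Tl.mpr ⟨h2, h, by omega⟩, fun h => by have := (mem_Tl.mp h).2.1; omega⟩
      · intro x hx
        rw [mem_Tl] at hx ⊢
        exact ⟨hx.1, by omega, by omega⟩
    have := Finset.card_lt_card this
    omega
  have hcard : (Tl A b2 b2').card + b2 ≤ b2' := by
    have : Tl A b2 b2' ⊆ Finset.Ioc b2 b2' := by unfold Tl; exact Finset.inter_subset_right
    have := Finset.card_le_card this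
    rw [Nat.card_Ioc] at this
    omega
  have hm2 : b2' ∈ Tl A b2 b2' \ Tl A b1 b1' := by
    rw [Finset.mem_sdiff, mem_Tl, mem_Tl]
    exact ⟨⟨h2', hb2, le_rfl⟩, fun h => by omega⟩
  have ht1 : ∀ x ∈ Tl A b1 b1' \ Tl A b2 b2', x ≤ b1' := fun x hx =>
    (mem_Tl.mp (Finset.mem_sdiff.mp hx).1).2.2
  have ht2 : ∀ x ∈ Tl A b2 b2' \ Tl A b1 b1', b1' < x := by
    intro x hx
    rw [Finset.mem_sdiff, mem_Tl, mem_Tl] at hx
    by_contra hcon
    exact hx.2 ⟨hx.1.1, by omega, by omega⟩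
  rcases Nat.lt_or_ge b1' b2 with h3 | h3
  · have hm1 : b1' ∈ Tl A b1 b1' \ Tl A b2 b2' := by
      rw [Finset.mem_sdiff, mem_Tl, mem_Tl]
      exact ⟨⟨h1, hb1, le_rfl⟩, fun h => by omega⟩
    have := sum_swap hc ht1 ht2 hm1 hm2
    omega
  · have hm1 : b2 ∈ Tl A b1 b1' \ Tl A b2 b2' := by
      rw [Finset.mem_sdiff, mem_Tl, mem_Tl]
      exact ⟨⟨h2, h, h3⟩, fun h => by omega⟩
    have := sum_swap hc ht1 ht2 hm1 hm2
    omega

/-- number of the tails with `j` elements and a sum in a given interval -/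
lemma card_tails (A : Finset ℕ) {j : ℕ} (hj : 1 ≤ j) (lo H : ℕ) :
    ((A ×ˢ A).filter (fun s => s.1 < s.2 ∧ (Tl A s.1 s.2).card = j ∧
      lo ≤ ∑ x ∈ Tl A s.1 s.2, x ∧ ∑ x ∈ Tl A s.1 s.2, x < lo + H)).card ≤ H / j + 1 := by
  classical
  rw [← Finset.card_range (H / j + 1)]
  refine Finset.card_le_card_of_injOn (fun s => (∑ x ∈ Tl A s.1 s.2, x - lo) / j) ?_ ?_
  · intro s hs
    rw [Finset.mem_coe, Finset.mem_filter] at hs
    rw [Finset.mem_coe, Finset.mem_range]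
    refine Nat.lt_succ_of_le (Nat.div_le_div_right ?_)
    omega
  · have key : ∀ s s' : ℕ × ℕ, s.1 ∈ A → s.2 ∈ A → s'.1 ∈ A → s'.2 ∈ A → s.1 < s.2 → s'.1 < s'.2 →
        (Tl A s.1 s.2).card = j → (Tl A s'.1 s'.2).card = j → lo ≤ ∑ x ∈ Tl A s.1 s.2, x →
        (∑ x ∈ Tl A s.1 s.2, x - lo) / j = (∑ x ∈ Tl A s'.1 s'.2, x - lo) / j → ¬ s.1 < s'.1 := by
      intro s s' a1 a2 a3 a4 a5 a6 a7 a8 a9 a10 a11
      have h1 := tl_shift a2 a3 a4 a5 a6 a11 (a7.trans a8.symm)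
      rw [a7] at h1
      have h2 : (∑ x ∈ Tl A s.1 s.2, x - lo) + j ≤ ∑ x ∈ Tl A s'.1 s'.2, x - lo := by omega
      have h3 := Nat.div_le_div_right (c := j) h2
      rw [Nat.add_div_right _ (by omega)] at h3
      omega
    intro s hs s' hs' he
    rw [Finset.mem_coe, Finset.mem_filter, Finset.mem_product] at hs hs'
    obtain ⟨⟨a1, a2⟩, a3, a4, a5, a6⟩ := hs
    obtain ⟨⟨c1, c2⟩, c3, c4, c5, c6⟩ := hs'
    have k1 := key s s' a1 a2 c1 c2 a3 c3 a4 c4 a5 he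
    have k2 := key s' s c1 c2 a1 a2 c3 a3 c4 a4 c5 he.symm
    have e1 : s.1 = s'.1 := by omega
    have e2 : s.2 = s'.2 := by
      have mono : ∀ u v : ℕ, u ∈ A → v ∈ A → s.1 < v → u < v → (Tl A s.1 u).card < (Tl A s.1 v).card := by
        intro u v _ hv hsv huv
        refine Finset.card_lt_card ?_
        rw [Finset.ssubset_iff_of_subset]
        · exact ⟨v, mem_Tl.mpr ⟨hv, hsv, le_rfl⟩, fun h => by have := (mem_Tl.mp h).2.2; omega⟩
        · intro x hx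
          rw [mem_Tl] at hx ⊢
          exact ⟨hx.1, hx.2.1, by omega⟩
      rw [← e1] at c4 c3
      rcases Nat.lt_trichotomy s.2 s'.2 with h | h | h
      · have := mono _ _ a2 c2 c3 h; omega
      · exact h
      · have := mono _ _ c2 a2 a3 h; omega
    exact Prod.ext e1 e2

end Pool.Agent.helper306_cramer2
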