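import Pool.Agent.helper306_cramer2.Inn

/-!
# The mean number of pairs of intersecting windows with equal sums
-/

namespace Pool.Agent.helper306_cramer2

open Finset Pool.Agent.helper306_cramer

/-- the quadruples with a given point in the head -/
def Qm (A : Finset ℕ) (x m : ℕ) : Finset ((ℕ × ℕ) × (ℕ × ℕ)) :=
  (Qd A x).filter (fun q => q.1.1 < m ∧ m < q.1.2)

/-- the weight -/
noncomputable def Fq (A : Finset ℕ) (x m : ℕ) : ℝ :=
  ∑ q ∈ Qm A x m, 1 / (((Hd A q.1.1 q.1.2).card : ℝ) - 1)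

lemma Fq_nonneg (A : Finset ℕ) (x m : ℕ) : 0 ≤ Fq A x m := by
  refine Finset.sum_nonneg (fun q hq => ?_)
  unfold Qm at hq
  have h := Qd_card (Finset.mem_filter.mp hq).1
  have : (2 : ℝ) ≤ ((Hd A q.1.1 q.1.2).card : ℝ) := by exact_mod_cast h
  exact div_nonneg (by norm_num) (by linarith)

/-- double counting -/
lemma inn_eq_sum (A : Finset ℕ) (x : ℕ) : (inn A x : ℝ) = ∑ m ∈ A, Fq A x m := by
  classical
  unfold Fq Qm
  simp_rw [Finset.sum_filter]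
  rw [Finset.sum_comm]
  have h1 : ∀ q ∈ Qd A x, ∑ m ∈ A, (if q.1.1 < m ∧ m < q.1.2 then
      1 / (((Hd A q.1.1 q.1.2).card : ℝ) - 1) else 0) = 1 := by
    intro q hq
    have h2 := Qd_card hq
    rw [mem_Qd] at hq
    have h3 := Hd_filter (A := A) hq.1.1.1 hq.2.1
    rw [← Finset.sum_filter, Finset.sum_const, nsmul_eq_mul]
    have h4 : ((A.filter (fun m => q.1.1 < m ∧ m < q.1.2)).card : ℝ)
        = ((Hd A q.1.1 q.1.2).card : ℝ) - 1 := by
      have : ((A.filter (fun m => q.1.1 < m ∧ m < q.1.2)).card : ℝ) + 1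
        = ((Hd A q.1.1 q.1.2).card : ℝ) := by exact_mod_cast h3
      linarith
    have h5 : (2 : ℝ) ≤ ((Hd A q.1.1 q.1.2).card : ℝ) := by exact_mod_cast h2
    rw [h4, mul_one_div, div_self (by linarith)]
  rw [Finset.sum_congr rfl h1, Finset.sum_const, nsmul_eq_mul, mul_one, inn_eq]

/-- the configurations after the removal of a point of the head -/
def Rq (A : Finset ℕ) (y L K : ℕ) : Finset ((ℕ × ℕ) × (ℕ × ℕ)) :=
  (Pk A K ×ˢ (A ×ˢ A)).filter (fun q => q.1.2 ≤ q.2.1 ∧ q.2.1 < q.2.2 ∧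
    (Tl A q.2.1 q.2.2).card ∈ Js y L (Hd A q.1.1 q.1.2).card ∧
    ∑ m ∈ Hd A q.1.1 q.1.2, m + q.1.1 < ∑ m ∈ Tl A q.2.1 q.2.2, m ∧
    ∑ m ∈ Tl A q.2.1 q.2.2, m < ∑ m ∈ Hd A q.1.1 q.1.2, m + q.1.2)

lemma Qm_insert {y L : ℕ} (hy : 1 ≤ y) {A : Finset ℕ} {x m : ℕ}
    (hA : insert m A ⊆ Finset.Ico y (y + L)) (hm : m ∉ A)
    {q : (ℕ × ℕ) × (ℕ × ℕ)} (hq : q ∈ Qm (insert m A) x m) :
    q ∈ Rq A y L (x / y) ∧ ∑ z ∈ Hd A q.1.1 q.1.2, z + m = ∑ z ∈ Tl A q.2.1 q.2.2, z ∧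
      (Hd (insert m A) q.1.1 q.1.2).card = (Hd A q.1.1 q.1.2).card + 1 := by
  unfold Qm at hq
  rw [Finset.mem_filter] at hq
  obtain ⟨hq, h1, h2⟩ := hq
  have hs := Qd_sums hq
  rw [mem_Qd] at hq
  obtain ⟨⟨⟨g1, g2⟩, g3, g4⟩, g5, g6, g7, g8, g9⟩ := hq
  rw [Finset.mem_insert] at g1 g2 g3 g4
  have k1 : q.1.1 ∈ A := by rcases g1 with h | h; (· omega); exact h
  have k2 : q.1.2 ∈ A := by rcases g2 with h | h; (· omega); exact h
  have k3 : q.2.1 ∈ A := by rcases g3 with h | h; (· omega); exact h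
  have k4 : q.2.2 ∈ A := by rcases g4 with h | h; (· omega); exact h
  have eT : Tl (insert m A) q.2.1 q.2.2 = Tl A q.2.1 q.2.2 := Tl_insert (by omega)
  have eH : Hd (insert m A) q.1.1 q.1.2 = insert m (Hd A q.1.1 q.1.2) := Hd_insert h1.le h2
  have eC : (Hd (insert m A) q.1.1 q.1.2).card = (Hd A q.1.1 q.1.2).card + 1 := by
    rw [eH, Finset.card_insert_of_notMem (notMem_Hd hm)]
  have hne : (Tl (insert m A) q.2.1 q.2.2).Nonempty := by
    rw [eT]; exact ⟨q.2.2, mem_Tl.mpr ⟨k4, g7, le_rfl⟩⟩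
  have hlt := card_tail_lt (A := insert m A) g6 hs.1 hne
  rw [eT, eC] at hlt
  have hsum : ∑ z ∈ Hd A q.1.1 q.1.2, z + m = ∑ z ∈ Tl A q.2.1 q.2.2, z := by
    have := hs.1
    rw [eT, eH, Finset.sum_insert (notMem_Hd hm)] at this
    omega
  have hly : ((Hd A q.1.1 q.1.2).card + 1) * y ≤ ∑ z ∈ Hd (insert m A) q.1.1 q.1.2, z := by
    rw [← eC]
    have := Finset.card_nsmul_le_sum (Hd (insert m A) q.1.1 q.1.2) (fun z => z) y (fun z hz =>
      (Finset.mem_Ico.mp (hA (mem_Hd.mp hz).1)).1)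
    rwa [smul_eq_mul] at this
  have huy : ∑ z ∈ Tl A q.2.1 q.2.2, z < (Tl A q.2.1 q.2.2).card * (y + L) := by
    rw [← eT]
    have : ∑ z ∈ Tl (insert m A) q.2.1 q.2.2, z < ∑ _z ∈ Tl (insert m A) q.2.1 q.2.2, (y + L) :=
      Finset.sum_lt_sum_of_nonempty hne (fun z hz => (Finset.mem_Ico.mp (hA (mem_Tl.mp hz).1)).2)
    rwa [Finset.sum_const, smul_eq_mul] at this
  refine ⟨?_, hsum, eC⟩
  unfold Rq
  rw [Finset.mem_filter, Finset.mem_product, mem_Pk, Finset.mem_product, mem_Js]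
  refine ⟨⟨⟨⟨k1, k2⟩, g5, ?_⟩, k3, k4⟩, g6, g7, ⟨hlt, ?_⟩, by omega, by omega⟩
  · have : (Hd A q.1.1 q.1.2).card * y ≤ x := by
      have h3 := hs.2
      nlinarith
    exact (Nat.le_div_iff_mul_le (by omega)).mpr this
  · have := hs.1
    rw [eT] at this
    omega

lemma sum_Fq_insert {y L : ℕ} (hy : 1 ≤ y) {A : Finset ℕ} {x : ℕ}
    (hA : A ⊆ Finset.Ico y (y + L)) :
    ∑ m ∈ Finset.Ico y (y + L) \ A, Fq (insert m A) x m
      ≤ ∑ q ∈ Rq A y L (x / y), 1 / ((Hd A q.1.1 q.1.2).card : ℝ) := by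
  classical
  have h1 : ∀ m ∈ Finset.Ico y (y + L) \ A, Fq (insert m A) x m
      = ∑ q ∈ Qm (insert m A) x m, 1 / ((Hd A q.1.1 q.1.2).card : ℝ) := by
    intro m hm
    rw [Finset.mem_sdiff] at hm
    unfold Fq
    refine Finset.sum_congr rfl (fun q hq => ?_)
    have h := Qm_insert hy (A := A) (x := x) (Finset.insert_subset hm.1 hA) hm.2 hq
    rw [h.2.2]
    push_cast
    congr 1; ring
  rw [Finset.sum_congr rfl h1, ← Finset.sum_biUnion]
  · refine Finset.sum_le_sum_of_subset_of_nonneg ?_ (fun q _ _ => by positivity)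
    intro q hq
    rw [Finset.mem_biUnion] at hq
    obtain ⟨m, hm, hq⟩ := hq
    rw [Finset.mem_sdiff] at hm
    exact (Qm_insert hy (A := A) (x := x) (Finset.insert_subset hm.1 hA) hm.2 hq).1
  · intro m hm m' hm' hne
    rw [Function.onFun, Finset.disjoint_left]
    intro q hq hq'
    rw [Finset.mem_coe, Finset.mem_sdiff] at hm hm'
    have e1 := (Qm_insert hy (A := A) (x := x) (Finset.insert_subset hm.1 hA) hm.2 hq).2.1
    have e2 := (Qm_insert hy (A := A) (x := x) (Finset.insert_subset hm'.1 hA) hm'.2 hq').2.1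
    omega

/-- the tails for a given head -/
lemma tails_le {y L : ℕ} (hy : 1 ≤ y) (hL : L ≤ y) {A : Finset ℕ} {s : ℕ × ℕ} (hs : s.1 < s.2) :
    (((A ×ˢ A).filter (fun w => s.2 ≤ w.1 ∧ w.1 < w.2 ∧
      (Tl A w.1 w.2).card ∈ Js y L (Hd A s.1 s.2).card ∧
      ∑ m ∈ Hd A s.1 s.2, m + s.1 < ∑ m ∈ Tl A w.1 w.2, m ∧
      ∑ m ∈ Tl A w.1 w.2, m < ∑ m ∈ Hd A s.1 s.2, m + s.2)).card : ℝ)
      ≤ (L : ℝ) / y * (2 * ((s.2 : ℝ) - s.1) + ((Hd A s.1 s.2).card : ℝ) + 1) := by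
  classical
  set u := (Hd A s.1 s.2).card with hu
  set lo := ∑ m ∈ Hd A s.1 s.2, m + s.1 with hlo
  have hy0 : (0 : ℝ) < y := by exact_mod_cast hy
  have h1 : ((A ×ˢ A).filter (fun w => s.2 ≤ w.1 ∧ w.1 < w.2 ∧ (Tl A w.1 w.2).card ∈ Js y L u ∧
      lo < ∑ m ∈ Tl A w.1 w.2, m ∧ ∑ m ∈ Tl A w.1 w.2, m < ∑ m ∈ Hd A s.1 s.2, m + s.2)).card
      ≤ ∑ j ∈ Js y L u, ((s.2 - s.1) / j + 1) := by
    refine le_trans ?_ (Finset.sum_le_sum (fun j hj =>
      card_tails A (j := j) ?_ lo (s.2 - s.1)))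
    · refine (Finset.card_le_card ?_).trans Finset.card_biUnion_le
      intro w hw
      rw [Finset.mem_filter] at hw
      rw [Finset.mem_biUnion]
      refine ⟨_, hw.2.2.2.1, ?_⟩
      rw [Finset.mem_filter]
      exact ⟨hw.1, hw.2.2.1, rfl, hw.2.2.2.2.1.le, by omega⟩
    · rw [mem_Js] at hj
      by_contra hcon
      have : j = 0 := by omega
      rw [this] at hj
      omega
  have h2 : ∀ j ∈ Js y L u, (((s.2 - s.1) / j + 1 : ℕ) : ℝ)
      ≤ 2 * ((s.2 : ℝ) - s.1) / (u + 1) + 1 := by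
    intro j hj
    rw [mem_Js] at hj
    have h3 : u + 1 < 2 * j := by
      have h4 : (u + 1) * y < j * (2 * y) := lt_of_lt_of_le hj.2 (Nat.mul_le_mul_left _ (by omega))
      have h5 : (u + 1) * y < (2 * j) * y := by
        calc (u + 1) * y < j * (2 * y) := h4
          _ = (2 * j) * y := by ring
      exact lt_of_mul_lt_mul_right h5 (by omega)
    have hj0 : (0 : ℝ) < j := by
      have : 0 < j := by omega
      exact_mod_cast this
    have h6 : ((u : ℝ) + 1) ≤ 2 * j := by exact_mod_cast h3.le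
    have h7 : ((s.2 - s.1 : ℕ) : ℝ) = (s.2 : ℝ) - s.1 := Nat.cast_sub hs.le
    have h8 : (0 : ℝ) ≤ (s.2 : ℝ) - s.1 := by rw [← h7]; exact Nat.cast_nonneg _
    have h9 : (((s.2 - s.1) / j : ℕ) : ℝ) ≤ ((s.2 : ℝ) - s.1) / j := by
      rw [← h7]; exact Nat.cast_div_le
    push_cast
    have h10 : ((s.2 : ℝ) - s.1) / j ≤ 2 * ((s.2 : ℝ) - s.1) / (u + 1) := by
      rw [div_le_div_iff₀ hj0 (by positivity)]
      nlinarith
    linarith
  have h3 : (((A ×ˢ A).filter (fun w => s.2 ≤ w.1 ∧ w.1 < w.2 ∧ (Tl A w.1 w.2).card ∈ Js y L u ∧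
      lo < ∑ m ∈ Tl A w.1 w.2, m ∧ ∑ m ∈ Tl A w.1 w.2, m < ∑ m ∈ Hd A s.1 s.2, m + s.2)).card : ℝ)
      ≤ ∑ j ∈ Js y L u, (((s.2 - s.1) / j + 1 : ℕ) : ℝ) := by exact_mod_cast h1
  refine h3.trans ((Finset.sum_le_sum h2).trans ?_)
  rw [Finset.sum_const, nsmul_eq_mul]
  have h4 : ((Js y L u).card : ℝ) ≤ (u + 1) * (L / y) := by
    have := card_Js y L u
    have h5 : ((Js y L u).card : ℝ) * y ≤ (u + 1) * L := by exact_mod_cast this
    rw [← mul_div_assoc, le_div_iff₀ hy0]; exact h5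
  have h5 : 0 ≤ (s.2 : ℝ) - s.1 := by
    have : (s.1 : ℝ) ≤ s.2 := by exact_mod_cast hs.le
    linarith
  calc ((Js y L u).card : ℝ) * (2 * ((s.2 : ℝ) - s.1) / (u + 1) + 1)
      ≤ ((u + 1) * (L / y)) * (2 * ((s.2 : ℝ) - s.1) / (u + 1) + 1) :=
        mul_le_mul_of_nonneg_right h4 (by positivity)
    _ = (L : ℝ) / y * (2 * ((s.2 : ℝ) - s.1) + u + 1) := by field_simp; ring

/-- the excess of a pair -/
noncomputable def Hs (A : Finset ℕ) (K : ℕ) : ℝ :=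
  ∑ s ∈ Pk A K, (((s.2 : ℝ) - s.1 - (Hd A s.1 s.2).card) / ((Hd A s.1 s.2).card : ℝ))

lemma sum_Rq_le {y L : ℕ} (hy : 1 ≤ y) (hL : L ≤ y) (A : Finset ℕ) (K : ℕ) :
    ∑ q ∈ Rq A y L K, 1 / ((Hd A q.1.1 q.1.2).card : ℝ)
      ≤ (L : ℝ) / y * (2 * Hs A K + 4 * (A.card * K)) := by
  classical
  have hy0 : (0 : ℝ) < y := by exact_mod_cast hy
  have e1 : ∑ q ∈ Rq A y L K, 1 / ((Hd A q.1.1 q.1.2).card : ℝ)
      = ∑ s ∈ Pk A K, (1 / ((Hd A s.1 s.2).card : ℝ)) *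
        (((A ×ˢ A).filter (fun w => s.2 ≤ w.1 ∧ w.1 < w.2 ∧
      (Tl A w.1 w.2).card ∈ Js y L (Hd A s.1 s.2).card ∧
      ∑ m ∈ Hd A s.1 s.2, m + s.1 < ∑ m ∈ Tl A w.1 w.2, m ∧
      ∑ m ∈ Tl A w.1 w.2, m < ∑ m ∈ Hd A s.1 s.2, m + s.2)).card : ℝ) := by
    unfold Rq
    rw [Finset.sum_filter, Finset.sum_product]
    refine Finset.sum_congr rfl (fun s _ => ?_)
    rw [← Finset.sum_filter]
    dsimp only
    rw [Finset.sum_const, nsmul_eq_mul, mul_comm]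
  rw [e1]
  have h1 : ∀ s ∈ Pk A K, (1 / ((Hd A s.1 s.2).card : ℝ)) *
        (((A ×ˢ A).filter (fun w => s.2 ≤ w.1 ∧ w.1 < w.2 ∧
      (Tl A w.1 w.2).card ∈ Js y L (Hd A s.1 s.2).card ∧
      ∑ m ∈ Hd A s.1 s.2, m + s.1 < ∑ m ∈ Tl A w.1 w.2, m ∧
      ∑ m ∈ Tl A w.1 w.2, m < ∑ m ∈ Hd A s.1 s.2, m + s.2)).card : ℝ)
      ≤ (L : ℝ) / y * (2 * (((s.2 : ℝ) - s.1 - (Hd A s.1 s.2).card) / ((Hd A s.1 s.2).card : ℝ)) + 4) := by
    intro s hs
    rw [mem_Pk] at hs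
    have h2 := tails_le hy hL (A := A) hs.2.1
    set u : ℝ := ((Hd A s.1 s.2).card : ℝ) with hu
    have hu1 : 1 ≤ u := by
      have : 1 ≤ (Hd A s.1 s.2).card := Finset.card_pos.mpr ⟨s.1, mem_Hd.mpr ⟨hs.1.1, le_rfl, hs.2.1⟩⟩
      rw [hu]; exact_mod_cast this
    refine (mul_le_mul_of_nonneg_left h2 (by positivity)).trans ?_
    have e2 : 1 / u * ((L : ℝ) / y * (2 * ((s.2 : ℝ) - s.1) + u + 1))
        = (L : ℝ) / y * ((2 * ((s.2 : ℝ) - s.1) + u + 1) / u) := by ring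
    rw [e2]
    refine mul_le_mul_of_nonneg_left ?_ (by positivity)
    rw [div_le_iff₀ (by linarith)]
    have e3 : (2 * (((s.2 : ℝ) - s.1 - u) / u) + 4) * u = 2 * ((s.2 : ℝ) - s.1 - u) + 4 * u := by
      field_simp
    rw [e3]; linarith
  refine (Finset.sum_le_sum h1).trans ?_
  rw [← Finset.mul_sum, Finset.sum_add_distrib, ← Finset.mul_sum, Finset.sum_const, nsmul_eq_mul]
  refine mul_le_mul_of_nonneg_left ?_ (by positivity)
  have h3 : ((Pk A K).card : ℝ) ≤ A.card * K := by exact_mod_cast card_Pk A K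
  unfold Hs
  linarith

/-- the pairs with a given point in the head -/
def Pm (A : Finset ℕ) (K m : ℕ) : Finset (ℕ × ℕ) := (Pk A K).filter (fun s => s.1 < m ∧ m < s.2)

/-- the weight for the lower Mecke inequality -/
noncomputable def Gq (A : Finset ℕ) (K m : ℕ) : ℝ :=
  ∑ s ∈ Pm A (K + 1) m, 1 / (((Hd A s.1 s.2).card : ℝ) - 1)

lemma Hd_card_pos {A : Finset ℕ} {a a' : ℕ} (ha : a ∈ A) (h : a < a') : 1 ≤ (Hd A a a').card :=
  Finset.card_pos.mpr ⟨a, mem_Hd.mpr ⟨ha, le_rfl, h⟩⟩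

lemma Gq_nonneg (A : Finset ℕ) (K m : ℕ) : 0 ≤ Gq A K m := by
  refine Finset.sum_nonneg (fun s hs => ?_)
  unfold Pm at hs
  rw [Finset.mem_filter, mem_Pk] at hs
  have : (1 : ℝ) ≤ ((Hd A s.1 s.2).card : ℝ) := by
    exact_mod_cast Hd_card_pos hs.1.1.1 hs.1.2.1
  exact div_nonneg (by norm_num) (by linarith)

lemma sum_Gq_le (A : Finset ℕ) (K : ℕ) : ∑ m ∈ A, Gq A K m ≤ A.card * (K + 1) := by
  classical
  unfold Gq Pm
  simp_rw [Finset.sum_filter]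
  rw [Finset.sum_comm]
  have h1 : ∀ s ∈ Pk A (K + 1), ∑ m ∈ A, (if s.1 < m ∧ m < s.2 then
      1 / (((Hd A s.1 s.2).card : ℝ) - 1) else 0) ≤ 1 := by
    intro s hs
    rw [mem_Pk] at hs
    have h3 := Hd_filter (A := A) hs.1.1 hs.2.1
    rw [← Finset.sum_filter, Finset.sum_const, nsmul_eq_mul]
    have h4 : ((A.filter (fun m => s.1 < m ∧ m < s.2)).card : ℝ)
        = ((Hd A s.1 s.2).card : ℝ) - 1 := by
      have : ((A.filter (fun m => s.1 < m ∧ m < s.2)).card : ℝ) + 1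
        = ((Hd A s.1 s.2).card : ℝ) := by exact_mod_cast h3
      linarith
    rw [h4, mul_one_div]
    exact div_self_le_one _
  refine (Finset.sum_le_sum h1).trans ?_
  rw [Finset.sum_const, nsmul_eq_mul, mul_one]
  exact_mod_cast card_Pk A (K + 1)

lemma Pm_insert {A : Finset ℕ} {K m : ℕ} (hm : m ∉ A) {s : ℕ × ℕ} (hs : s ∈ Pk A K)
    (h1 : s.1 < m) (h2 : m < s.2) : s ∈ Pm (insert m A) (K + 1) m ∧
      (Hd (insert m A) s.1 s.2).card = (Hd A s.1 s.2).card + 1 := by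
  rw [mem_Pk] at hs
  have eC : (Hd (insert m A) s.1 s.2).card = (Hd A s.1 s.2).card + 1 := by
    rw [Hd_insert h1.le h2, Finset.card_insert_of_notMem (notMem_Hd hm)]
  refine ⟨?_, eC⟩
  unfold Pm
  rw [Finset.mem_filter, mem_Pk, eC]
  exact ⟨⟨⟨Finset.mem_insert_of_mem hs.1.1, Finset.mem_insert_of_mem hs.1.2⟩, hs.2.1, by omega⟩,
    h1, h2⟩

lemma Hs_le {y L : ℕ} {A : Finset ℕ} {K : ℕ} (hA : A ⊆ Finset.Ico y (y + L)) :
    Hs A K ≤ ∑ m ∈ Finset.Ico y (y + L) \ A, Gq (insert m A) K m := by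
  classical
  have h1 : ∀ m ∈ Finset.Ico y (y + L) \ A, ∑ s ∈ (Pk A K).filter (fun s => s.1 < m ∧ m < s.2),
      1 / ((Hd A s.1 s.2).card : ℝ) ≤ Gq (insert m A) K m := by
    intro m hm
    rw [Finset.mem_sdiff] at hm
    unfold Gq
    refine le_trans (le_of_eq ?_) (Finset.sum_le_sum_of_subset_of_nonneg
      (s := (Pk A K).filter (fun s => s.1 < m ∧ m < s.2)) ?_ ?_)
    · refine Finset.sum_congr rfl (fun s hs => ?_)
      rw [Finset.mem_filter] at hs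
      rw [(Pm_insert hm.2 hs.1 hs.2.1 hs.2.2).2]
      push_cast
      congr 1; ring
    · intro s hs
      rw [Finset.mem_filter] at hs
      exact (Pm_insert hm.2 hs.1 hs.2.1 hs.2.2).1
    · intro s hs _
      unfold Pm at hs
      rw [Finset.mem_filter, mem_Pk] at hs
      have : (1 : ℝ) ≤ ((Hd (insert m A) s.1 s.2).card : ℝ) := by
        exact_mod_cast Hd_card_pos hs.1.1.1 hs.1.2.1
      exact div_nonneg (by norm_num) (by linarith)
  refine le_trans ?_ (Finset.sum_le_sum h1)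
  simp_rw [Finset.sum_filter]
  rw [Finset.sum_comm]
  unfold Hs
  refine Finset.sum_le_sum (fun s hs => ?_)
  rw [mem_Pk] at hs
  rw [← Finset.sum_filter, Finset.sum_const, nsmul_eq_mul, mul_one_div]
  refine div_le_div_of_nonneg_right ?_ (Nat.cast_nonneg _)
  -- count
  have h3 := Hd_filter (A := A) hs.1.1 hs.2.1
  have h4 : ((Finset.Ico y (y + L) \ A).filter (fun m => s.1 < m ∧ m < s.2)).card
      + (A.filter (fun m => s.1 < m ∧ m < s.2)).card = (Finset.Ioo s.1 s.2).card := by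
    rw [← Finset.card_union_of_disjoint]
    · congr 1
      ext m
      rw [Finset.mem_union, Finset.mem_filter, Finset.mem_filter, Finset.mem_sdiff, Finset.mem_Ioo,
        Finset.mem_Ico]
      have e1 := Finset.mem_Ico.mp (hA hs.1.1)
      have e2 := Finset.mem_Ico.mp (hA hs.1.2)
      constructor
      · rintro (⟨_, h⟩ | ⟨_, h⟩) <;> exact h
      · intro h
        by_cases hmA : m ∈ A
        · exact Or.inr ⟨hmA, h⟩
        · exact Or.inl ⟨⟨⟨by omega, by omega⟩, hmA⟩, h⟩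
    · rw [Finset.disjoint_left]
      intro m h5 h6
      rw [Finset.mem_filter, Finset.mem_sdiff] at h5
      rw [Finset.mem_filter] at h6
      exact h5.1.2 h6.1
  rw [Nat.card_Ioo] at h4
  have h5 : ((Finset.Ico y (y + L) \ A).filter (fun m => s.1 < m ∧ m < s.2)).card
      + (Hd A s.1 s.2).card + s.1 = s.2 := by
    have := hs.2.1
    omega
  have h6 : (((Finset.Ico y (y + L) \ A).filter (fun m => s.1 < m ∧ m < s.2)).card : ℝ)
      + ((Hd A s.1 s.2).card : ℝ) + s.1 = s.2 := by exact_mod_cast h5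
  linarith

/-- **The mean number of pairs of intersecting windows with equal sums.** -/
theorem Ex_inn_le2 {p : ℕ → ℝ} (h0 : ∀ m, 0 ≤ p m) (h1 : ∀ m, p m ≤ 1) {y L x : ℕ} (hy : 1 ≤ y)
    (hL : L ≤ y) {c c₁ : ℝ} (hc0 : 0 ≤ c) (hc₁ : 0 < c₁)
    (hc : ∀ m ∈ Finset.Ico y (y + L), p m ≤ c * (1 - p m))
    (hcl : ∀ m ∈ Finset.Ico y (y + L), c₁ * (1 - p m) ≤ p m) :
    Ex p (Finset.Ico y (y + L)) (fun A => (inn A x : ℝ))
      ≤ c ^ 2 * (2 / c₁ + 4) * ((L : ℝ) / y) * (L * (((x / y : ℕ) : ℝ) + 1)) := by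
  classical
  set J := Finset.Ico y (y + L) with hJ
  set K := x / y with hK
  have hy0 : (0 : ℝ) < y := by exact_mod_cast hy
  have hp : ∀ m ∈ J, p m ≤ c := by
    intro m hm
    have h2 := hc m hm
    have h3 := h0 m
    nlinarith
  have hcard : Ex p J (fun A => (A.card : ℝ)) ≤ c * L := by
    rw [Ex_card]
    refine (Finset.sum_le_sum hp).trans ?_
    rw [Finset.sum_const, hJ, Nat.card_Ico, nsmul_eq_mul, Nat.add_sub_cancel_left, mul_comm]
  have s1 : Ex p J (fun A => (inn A x : ℝ)) ≤ c * Ex p J (fun A => ∑ m ∈ J \ A, Fq (insert m A) x m) := by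
    have e1 : Ex p J (fun A => (inn A x : ℝ)) = Ex p J (fun A => ∑ m ∈ A, Fq A x m) :=
      Ex_congr (fun A _ => inn_eq_sum A x)
    rw [e1]
    exact mecke_le h0 h1 hc (F := fun A m => Fq A x m) (fun A m => Fq_nonneg A x m)
  have s2 : Ex p J (fun A => ∑ m ∈ J \ A, Fq (insert m A) x m)
      ≤ Ex p J (fun A => (L : ℝ) / y * (2 * Hs A K + 4 * (A.card * K))) :=
    Ex_mono h0 h1 (fun A hA => (sum_Fq_insert hy hA).trans (sum_Rq_le hy hL A K))
  have s3 : Ex p J (fun A => (L : ℝ) / y * (2 * Hs A K + 4 * (A.card * K)))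
      = (L : ℝ) / y * (2 * Ex p J (fun A => Hs A K) + 4 * K * Ex p J (fun A => (A.card : ℝ))) := by
    rw [Ex_mul_left, Ex_add, Ex_mul_left]
    congr 2
    rw [← Ex_mul_left]
    exact Ex_congr (fun A _ => by ring)
  have s4 : c₁ * Ex p J (fun A => Hs A K) ≤ (K + 1) * (c * L) := by
    have t1 : Ex p J (fun A => Hs A K) ≤ Ex p J (fun A => ∑ m ∈ J \ A, Gq (insert m A) K m) :=
      Ex_mono h0 h1 (fun A hA => Hs_le hA)
    have t2 := mecke_ge h0 h1 hcl (F := fun A m => Gq A K m) (fun A m => Gq_nonneg A K m)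
    have t3 : Ex p J (fun A => ∑ m ∈ A, Gq A K m) ≤ Ex p J (fun A => ((K : ℝ) + 1) * (A.card : ℝ)) :=
      Ex_mono h0 h1 (fun A _ => (sum_Gq_le A K).trans (le_of_eq (by ring)))
    rw [Ex_mul_left] at t3
    calc c₁ * Ex p J (fun A => Hs A K) ≤ c₁ * Ex p J (fun A => ∑ m ∈ J \ A, Gq (insert m A) K m) :=
          mul_le_mul_of_nonneg_left t1 hc₁.le
      _ ≤ Ex p J (fun A => ∑ m ∈ A, Gq A K m) := t2
      _ ≤ ((K : ℝ) + 1) * Ex p J (fun A => (A.card : ℝ)) := t3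
      _ ≤ ((K : ℝ) + 1) * (c * L) := mul_le_mul_of_nonneg_left hcard (by positivity)
  have s5 : Ex p J (fun A => Hs A K) ≤ (K + 1) * (c * L) / c₁ := by
    rw [le_div_iff₀ hc₁, mul_comm]; exact s4
  have hK0 : (0 : ℝ) ≤ K := Nat.cast_nonneg K
  calc Ex p J (fun A => (inn A x : ℝ)) ≤ c * Ex p J (fun A => ∑ m ∈ J \ A, Fq (insert m A) x m) := s1
    _ ≤ c * ((L : ℝ) / y * (2 * Ex p J (fun A => Hs A K) + 4 * K * Ex p J (fun A => (A.card : ℝ)))) :=
        mul_le_mul_of_nonneg_left (s2.trans (le_of_eq s3)) hc0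
    _ ≤ c * ((L : ℝ) / y * (2 * ((K + 1) * (c * L) / c₁) + 4 * (K + 1) * (c * L))) := by
        refine mul_le_mul_of_nonneg_left ?_ hc0
        refine mul_le_mul_of_nonneg_left ?_ (by positivity)
        have h5 : 4 * (K : ℝ) * Ex p J (fun A => (A.card : ℝ)) ≤ 4 * (K + 1) * (c * L) := by
          have h6 : 4 * (K : ℝ) * Ex p J (fun A => (A.card : ℝ)) ≤ 4 * K * (c * L) :=
            mul_le_mul_of_nonneg_left hcard (by positivity)
          have h7 : 0 ≤ c * (L : ℝ) := by positivity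
          nlinarith
        linarith
    _ = c ^ 2 * (2 / c₁ + 4) * ((L : ℝ) / y) * (L * (K + 1)) := by
        field_simp

end Pool.Agent.helper306_cramer2
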