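import Pool.Agent.helper306_cramer2.Almost2

/-!
# The almost sure Poisson law, for general densities
-/

namespace Pool.Agent.helper306_cramer2

open Finset Filter Topology MeasureTheory ProbabilityTheory Pool.Agent.helper306_cramer

/-- the almost sure Poisson law -/
theorem poisson_law2 {Ω : Type*} [MeasurableSpace Ω] (μ : Measure Ω) [IsProbabilityMeasure μ]
    (p : ℕ → ℝ) (hd : PL p) (P : Ω → Set ℕ) (hm : ∀ m, MeasurableSet {ω | m ∈ P ω})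
    (hi : iIndepSet (fun m => {ω | m ∈ P ω}) μ)
    (hp : ∀ m, 1 ≤ m → μ {ω | m ∈ P ω} = ENNReal.ofReal (p m)) :
    ∀ᵐ ω ∂μ, ∀ k : ℕ, Tendsto (fun x : ℕ =>
      (((Finset.Icc 1 x).filter (fun n => reps (P ω) n = k)).card : ℝ) / (x : ℝ)) atTop
      (𝓝 ((Real.log 2) ^ k / (2 * (k.factorial : ℝ)))) := by
  have h1 : ∀ᵐ ω ∂μ, ∀ z : ℚ, 0 ≤ z → z ≤ 1 → ∀ q : ℕ, 8 ≤ q → ∀ᶠ i : ℕ in atTop,
      |Sg (P ω) ((i + 1) ^ (3 * q)) (z : ℝ) - (((i + 1) ^ (3 * q) : ℕ) : ℝ) * (2 : ℝ) ^ ((z : ℝ) - 1)|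
        ≤ (((i + 1) ^ (3 * q) : ℕ) : ℝ) * (108 / q) := by
    rw [ae_all_iff]
    intro z
    by_cases hz : 0 ≤ z ∧ z ≤ 1
    · have h2 : ∀ᵐ ω ∂μ, ∀ q : ℕ, 8 ≤ q → ∀ᶠ i : ℕ in atTop,
          |Sg (P ω) ((i + 1) ^ (3 * q)) (z : ℝ)
            - (((i + 1) ^ (3 * q) : ℕ) : ℝ) * (2 : ℝ) ^ ((z : ℝ) - 1)|
          ≤ (((i + 1) ^ (3 * q) : ℕ) : ℝ) * (108 / q) := by
        rw [ae_all_iff]
        intro q
        by_cases hq : 8 ≤ q
        · have h3 := ae_sparse2 (μ := μ) hd (E := fun m => {ω | m ∈ P ω}) hm hi hp hq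
            (z := (z : ℝ)) (by exact_mod_cast hz.1) (by exact_mod_cast hz.2)
          filter_upwards [h3] with ω hω _
          exact hω
        · exact Eventually.of_forall (fun ω h => absurd h hq)
      filter_upwards [h2] with ω hω _ _
      exact hω
    · exact Eventually.of_forall (fun ω h0 h1' => absurd ⟨h0, h1'⟩ hz)
  filter_upwards [h1] with ω hω k
  have h2 : ∀ z : ℚ, 0 < z → z ≤ 1 →
      Tendsto (fun x : ℕ => (∑ n ∈ Finset.Icc 1 x, (z : ℝ) ^ (cnt (RA (P ω) n) n)) / (x : ℝ))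
        atTop (𝓝 ((2 : ℝ) ^ ((z : ℝ) - 1))) := by
    intro z hz0 hz1
    have hzr0 : (0 : ℝ) ≤ z := by exact_mod_cast hz0.le
    have hzr1 : (z : ℝ) ≤ 1 := by exact_mod_cast hz1
    refine interp (fun n => pow_nonneg hzr0 _) (by positivity) ?_ (fun q hq => hω z hz0.le hz1 q hq)
    exact Real.rpow_le_one_of_one_le_of_nonpos (by norm_num) (by linarith)
  have h3 := continuity (f := fun n => cnt (RA (P ω) n) n) h2 k
  refine h3.congr (fun x => ?_)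
  congr 3
  ext n
  simp only [Finset.mem_filter, Finset.mem_Icc]
  constructor
  · rintro ⟨h4, h5⟩; exact ⟨h4, by rw [reps_eq _ h4.1]; exact h5⟩
  · rintro ⟨h4, h5⟩; exact ⟨h4, by rw [← reps_eq _ h4.1]; exact h5⟩

end Pool.Agent.helper306_cramer2
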