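import Pool.Agent.helper306_cramer2.Sums2

/-!
# Mean and variance of the generating sum, for general densities
-/

namespace Pool.Agent.helper306_cramer2

open Finset Pool.Agent.helper306_cramer

section
variable {p cu cl : ℕ → ℝ} {rho : ℝ} {e J L : ℕ}

/-- variance -/
theorem XS_var2 (h0 : ∀ m, 0 ≤ p m) (h1 : ∀ m, p m ≤ 1) (he : e ≤ J) (x : ℕ) {z : ℝ}
    (hz0 : 0 ≤ z) (hz1 : z ≤ 1) {W : Finset ℕ} (hW : ∀ s ∈ SS e J L, Ib e s ⊆ W) :
    Ex p W (fun A => (XS e J L x z A - Ex p W (XS e J L x z)) ^ 2)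
      ≤ 2 * (L + 1) / 2 ^ e * (x : ℝ) ^ 2 := by
  have h1 := var_family (p := p) h0 h1 (SS e J L) (yb e) (Lb e)
    (fun s _ => yb_pos e s) (blocks_disjoint he) hW x hz0 hz1
  have h2 : Ex p W (XS e J L x z) = ∑ n ∈ Finset.Icc 1 x, Ex p W
      (fun B => z ^ (FS (SS e J L) (fun s => Finset.Ico (yb e s) (yb e s + Lb e s)) n B)) := by
    unfold XS
    rw [Ex_sum]
    rfl
  rw [h2]
  refine h1.trans ?_
  have h3 : ∀ s ∈ SS e J L, 2 * ((Lb e s * (x / yb e s) : ℕ) : ℝ) ^ 2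
      ≤ 2 * ((x : ℝ) / 2 ^ e) ^ 2 := by
    intro s _
    have h4 : ((Lb e s * (x / yb e s) : ℕ) : ℝ) ≤ x / 2 ^ e := by
      have h5 : Lb e s * (x / yb e s) * 2 ^ e ≤ x := by
        calc Lb e s * (x / yb e s) * 2 ^ e = (Lb e s * 2 ^ e) * (x / yb e s) := by ring
          _ ≤ yb e s * (x / yb e s) := Nat.mul_le_mul_right _ (Lb_mul_le e s)
          _ ≤ x := Nat.mul_div_le x (yb e s)
      rw [le_div_iff₀ (by positivity)]
      exact_mod_cast h5
    have h6 : (0 : ℝ) ≤ ((Lb e s * (x / yb e s) : ℕ) : ℝ) := Nat.cast_nonneg _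
    nlinarith
  refine (Finset.sum_le_sum h3).trans ?_
  rw [Finset.sum_const, nsmul_eq_mul]
  have hcard : (((SS e J L).card : ℕ) : ℝ) ≤ (L + 1) * 2 ^ e := by
    unfold SS
    rw [Finset.card_product, Nat.card_Icc, Finset.card_range]
    push_cast
    refine mul_le_mul_of_nonneg_right ?_ (by positivity)
    have : L + 1 - J ≤ L + 1 := Nat.sub_le _ _
    exact_mod_cast this
  have h7 : (0 : ℝ) ≤ 2 * ((x : ℝ) / 2 ^ e) ^ 2 := by positivity
  calc (((SS e J L).card : ℕ) : ℝ) * (2 * ((x : ℝ) / 2 ^ e) ^ 2)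
      ≤ ((L + 1) * 2 ^ e) * (2 * ((x : ℝ) / 2 ^ e) ^ 2) := mul_le_mul_of_nonneg_right hcard h7
    _ = 2 * (L + 1) / 2 ^ e * (x : ℝ) ^ 2 := by
        field_simp

/-- the intersecting pairs of one block -/
lemma inn_block (h : CB p cu cl rho J) (hr1 : rho ≤ 1) (he : e ≤ J) {x : ℕ} (hx : 2 ^ L ≤ x)
    {s : ℕ × ℕ} (hs : s ∈ SS e J L) :
    Ex p (Ib e s) (fun A => (inn A x : ℝ)) ≤ 36 * rho * x / (2 ^ e * 2 ^ e) := by
  have hs' := mem_SS.mp hs
  have hr0 := h.rho_pos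
  have hcl := h.cl_pos s.1 hs'.1.1
  have hcu := h.cu_pos hs'.1.1
  have hcur := h.cu_le s.1 hs'.1.1
  have hrat := h.ratio s.1 hs'.1.1
  have hy1 := yb_pos e s
  have hy0 : (0 : ℝ) < yb e s := by exact_mod_cast hy1
  have h1 := Ex_inn_le2 h.nonneg h.le_one (x := x) hy1 (Lb_le e s) hcu.le hcl
    (fun m hm => by
      have := mem_dyadic he hs hm
      exact h.up s.1 hs'.1.1 m this.1 this.2)
    (fun m hm => by
      have := mem_dyadic he hs hm
      have h2 := h.low s.1 hs'.1.1 m this.1 this.2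
      have h3 := h.nonneg m
      nlinarith)
  refine h1.trans ?_
  have a1 : (cu s.1) ^ 2 * (2 / cl s.1 + 4) ≤ 12 * rho := by
    have b1 : (cu s.1) ^ 2 * (2 / cl s.1) ≤ 8 * rho := by
      rw [mul_div_assoc', div_le_iff₀ hcl]
      nlinarith
    have b2 : (cu s.1) ^ 2 * 4 ≤ 4 * rho := by nlinarith
    linarith
  have a2 : (Lb e s : ℝ) / yb e s ≤ 1 / 2 ^ e := by
    rw [div_le_div_iff₀ hy0 (by positivity), one_mul]
    exact_mod_cast Lb_mul_le e s
  have a3 : (Lb e s : ℝ) * (((x / yb e s : ℕ) : ℝ) + 1) ≤ 3 * x / 2 ^ e := by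
    have c1 : ((x / yb e s : ℕ) : ℝ) ≤ x / yb e s := Nat.cast_div_le
    have c2 : (yb e s : ℝ) ≤ 2 * x := by
      have d1 := yb_add_le (e := e) (s := s) (by omega) hs'.2
      have d2 : 2 ^ (s.1 + 1) ≤ 2 ^ (L + 1) := Nat.pow_le_pow_right (by norm_num) (by omega)
      have d3 : 2 ^ (L + 1) = 2 * 2 ^ L := by rw [pow_succ]; ring
      have : yb e s ≤ 2 * x := by omega
      exact_mod_cast this
    have c3 : (Lb e s : ℝ) ≤ yb e s / 2 ^ e := by
      rw [le_div_iff₀ (by positivity)]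
      exact_mod_cast Lb_mul_le e s
    calc (Lb e s : ℝ) * (((x / yb e s : ℕ) : ℝ) + 1) ≤ (yb e s / 2 ^ e) * (x / yb e s + 1) :=
          mul_le_mul c3 (by linarith) (by positivity) (by positivity)
      _ = (x + yb e s) / 2 ^ e := by field_simp
      _ ≤ 3 * x / 2 ^ e := div_le_div_of_nonneg_right (by linarith) (by positivity)
  calc (cu s.1) ^ 2 * (2 / cl s.1 + 4) * ((Lb e s : ℝ) / yb e s)
        * ((Lb e s : ℝ) * (((x / yb e s : ℕ) : ℝ) + 1))
      ≤ (12 * rho) * (1 / 2 ^ e) * (3 * x / 2 ^ e) :=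
        mul_le_mul (mul_le_mul a1 a2 (by positivity) (by positivity)) a3 (by positivity)
          (by positivity)
    _ = 36 * rho * x / (2 ^ e * 2 ^ e) := by field_simp; ring

/-- mean -/
theorem XS_mean2 (h : CB p cu cl rho J) (hr1 : rho ≤ 1) (he : e ≤ J) {x : ℕ} (hx : 2 ^ L ≤ x)
    {z : ℝ} (hz0 : 0 ≤ z) (hz1 : z ≤ 1) {W : Finset ℕ} (hW : ∀ s ∈ SS e J L, Ib e s ⊆ W) :
    |Ex p W (XS e J L x z) - x * (2 : ℝ) ^ (z - 1)|
      ≤ x * (30 * rho * (Real.log 2 * (∑ j ∈ Finset.Icc J L, cu j) + 16 * rho)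
          + (Real.log 2 * (∑ j ∈ Finset.Icc J L, cu j) - Real.log 2 * (∑ j ∈ Finset.Icc J L, cl j))
          + 18 * rho + (∑ j ∈ Finset.Icc J L, cl j) / 2 ^ e
          + |Real.log 2 * (∑ j ∈ Finset.Icc J L, cu j) + 16 * rho - Real.log 2|
          + 36 * rho * (L + 1) / 2 ^ e)
        + (L + 1) * 2 ^ e * ((x : ℝ) / 2 ^ J) ^ 2 := by
  classical
  have hr0 := h.rho_pos
  have hp0 := h.nonneg
  have hp1 := h.le_one
  have hx0 : (0 : ℝ) ≤ x := Nat.cast_nonneg x
  set D := ∑ j ∈ Finset.Icc J L, cu j with hD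
  set D' := ∑ j ∈ Finset.Icc J L, cl j with hD'
  have hD0 : 0 ≤ D := Finset.sum_nonneg (fun j hj => (h.cu_pos (Finset.mem_Icc.mp hj).1).le)
  have hlog2 : 0 ≤ Real.log 2 := Real.log_nonneg (by norm_num)
  set U := Real.log 2 * D + 16 * rho with hU
  have hU0 : 0 ≤ U := by positivity
  set B := (L + 1) * 2 ^ e * ((x : ℝ) / 2 ^ J) ^ 2 with hB
  have hLa0 : ∀ n, 0 ≤ La p (SS e J L) (Ib e) n := fun n =>
    Finset.sum_nonneg (fun s _ => Ex_nonneg hp0 hp1 (fun A _ => Nat.cast_nonneg _))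
  have hLaU : ∀ n ∈ Finset.Icc 1 x, La p (SS e J L) (Ib e) n ≤ U := fun n hn =>
    La_le2 h he (Finset.mem_Icc.mp hn).1
  have hlow := sum_La_ge2 h he (L := L) (e := e) (J := J) hx
  rw [← hD', ← hB] at hlow
  -- first step: compare with the Poisson generating function
  have h1 : Ex p W (XS e J L x z)
      = ∑ n ∈ Finset.Icc 1 x, Ex p W (fun A => z ^ (FS (SS e J L) (Ib e) n A)) := by
    unfold XS; rw [Ex_sum]
  set T : ℕ → ℝ := fun n => ∑ s ∈ SS e J L, (2 * (Ex p (Ib e s) (fun A => (cnt A n : ℝ))) ^ 2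
      + Ex p (Ib e s) (fun A => (innn A n : ℝ))) with hT
  have h2 : ∀ n, |Ex p W (fun A => z ^ (FS (SS e J L) (Ib e) n A))
      - Real.exp (-((1 - z) * La p (SS e J L) (Ib e) n))| ≤ T n := fun n =>
    mean_family (p := p) hp0 hp1 (SS e J L) (yb e) (Lb e) (fun s _ => yb_pos e s)
      (blocks_disjoint he) hW n hz0 hz1
  have h3 : ∀ n, |Real.exp (-((1 - z) * La p (SS e J L) (Ib e) n)) - (2 : ℝ) ^ (z - 1)|
      ≤ |La p (SS e J L) (Ib e) n - Real.log 2| := by
    intro n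
    rw [two_rpow_eq]
    refine (exp_sub_le (mul_nonneg (by linarith) (hLa0 n)) (mul_nonneg (by linarith) hlog2)).trans ?_
    rw [← mul_sub, abs_mul, abs_of_nonneg (by linarith : (0 : ℝ) ≤ 1 - z)]
    exact mul_le_of_le_one_left (abs_nonneg _) (by linarith)
  have h4 : ∀ n ∈ Finset.Icc 1 x, |Ex p W (fun A => z ^ (FS (SS e J L) (Ib e) n A))
      - (2 : ℝ) ^ (z - 1)| ≤ T n + ((U - La p (SS e J L) (Ib e) n) + |U - Real.log 2|) := by
    intro n hn
    have a1 := h2 n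
    have a2 := h3 n
    have a3 : |La p (SS e J L) (Ib e) n - Real.log 2|
        ≤ (U - La p (SS e J L) (Ib e) n) + |U - Real.log 2| := by
      have b1 := hLaU n hn
      have : La p (SS e J L) (Ib e) n - Real.log 2
          = -(U - La p (SS e J L) (Ib e) n) + (U - Real.log 2) := by ring
      rw [this]
      refine (abs_add_le _ _).trans (add_le_add ?_ le_rfl)
      rw [abs_neg, abs_of_nonneg (by linarith)]
    calc |Ex p W (fun A => z ^ (FS (SS e J L) (Ib e) n A)) - (2 : ℝ) ^ (z - 1)|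
        ≤ |Ex p W (fun A => z ^ (FS (SS e J L) (Ib e) n A))
          - Real.exp (-((1 - z) * La p (SS e J L) (Ib e) n))|
          + |Real.exp (-((1 - z) * La p (SS e J L) (Ib e) n)) - (2 : ℝ) ^ (z - 1)| :=
          abs_sub_le _ _ _
      _ ≤ _ := by linarith
  have h5 : |Ex p W (XS e J L x z) - x * (2 : ℝ) ^ (z - 1)|
      ≤ ∑ n ∈ Finset.Icc 1 x, (T n + ((U - La p (SS e J L) (Ib e) n) + |U - Real.log 2|)) := by
    have e1 : (x : ℝ) * (2 : ℝ) ^ (z - 1) = ∑ n ∈ Finset.Icc 1 x, (2 : ℝ) ^ (z - 1) := by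
      rw [Finset.sum_const, Nat.card_Icc, Nat.add_sub_cancel, nsmul_eq_mul]
    rw [h1, e1, ← Finset.sum_sub_distrib]
    exact (Finset.abs_sum_le_sum_abs _ _).trans (Finset.sum_le_sum h4)
  refine h5.trans ?_
  rw [Finset.sum_add_distrib, Finset.sum_add_distrib, Finset.sum_sub_distrib, Finset.sum_const,
    Finset.sum_const, Nat.card_Icc, Nat.add_sub_cancel, nsmul_eq_mul, nsmul_eq_mul]
  -- the sum of T
  have h6 : ∑ n ∈ Finset.Icc 1 x, T n ≤ 30 * rho * (x * U) + x * (36 * rho * (L + 1) / 2 ^ e) := by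
    rw [hT]
    simp only
    have e1 : ∑ n ∈ Finset.Icc 1 x, ∑ s ∈ SS e J L,
        (2 * (Ex p (Ib e s) (fun A => (cnt A n : ℝ))) ^ 2
          + Ex p (Ib e s) (fun A => (innn A n : ℝ)))
        = ∑ n ∈ Finset.Icc 1 x, ∑ s ∈ SS e J L,
            2 * (Ex p (Ib e s) (fun A => (cnt A n : ℝ))) ^ 2
          + ∑ s ∈ SS e J L, Ex p (Ib e s) (fun A => ∑ n ∈ Finset.Icc 1 x, (innn A n : ℝ)) := by
      have : ∀ n, ∑ s ∈ SS e J L, (2 * (Ex p (Ib e s) (fun A => (cnt A n : ℝ))) ^ 2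
          + Ex p (Ib e s) (fun A => (innn A n : ℝ)))
          = ∑ s ∈ SS e J L, 2 * (Ex p (Ib e s) (fun A => (cnt A n : ℝ))) ^ 2
            + ∑ s ∈ SS e J L, Ex p (Ib e s) (fun A => (innn A n : ℝ)) :=
        fun n => Finset.sum_add_distrib
      rw [Finset.sum_congr rfl (fun n _ => this n), Finset.sum_add_distrib]
      congr 1
      rw [Finset.sum_comm]
      exact Finset.sum_congr rfl (fun s _ => (Ex_sum _ _ _ _).symm)
    rw [e1]
    refine add_le_add ?_ ?_
    · have e2 : ∀ n ∈ Finset.Icc 1 x, ∑ s ∈ SS e J L,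
          2 * (Ex p (Ib e s) (fun A => (cnt A n : ℝ))) ^ 2 ≤ 30 * rho * U := by
        intro n hn
        have e3 : ∀ s ∈ SS e J L, 2 * (Ex p (Ib e s) (fun A => (cnt A n : ℝ))) ^ 2
            ≤ 30 * rho * Ex p (Ib e s) (fun A => (cnt A n : ℝ)) := by
          intro s hs
          have b1 := lam_max2 h he hs n
          have b2 : 0 ≤ Ex p (Ib e s) (fun A => (cnt A n : ℝ)) :=
            Ex_nonneg hp0 hp1 (fun A _ => Nat.cast_nonneg _)
          nlinarith
        refine (Finset.sum_le_sum e3).trans ?_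
        rw [← Finset.mul_sum]
        exact mul_le_mul_of_nonneg_left (hLaU n hn) (by positivity)
      refine (Finset.sum_le_sum e2).trans (le_of_eq ?_)
      rw [Finset.sum_const, Nat.card_Icc, Nat.add_sub_cancel, nsmul_eq_mul]
      ring
    · have e2 : ∀ s ∈ SS e J L, Ex p (Ib e s) (fun A => ∑ n ∈ Finset.Icc 1 x, (innn A n : ℝ))
          ≤ 36 * rho * x / (2 ^ e * 2 ^ e) := by
        intro s hs
        have b1 : Ex p (Ib e s) (fun A => ∑ n ∈ Finset.Icc 1 x, (innn A n : ℝ))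
            ≤ Ex p (Ib e s) (fun A => (inn A x : ℝ)) := by
          refine Ex_mono hp0 hp1 (fun A hA => ?_)
          have := sum_innn_le (A := A) (fun m hm => by
            have h := hA hm
            unfold Ib at h
            rw [Finset.mem_Ico] at h
            have := yb_pos e s
            omega) x
          exact_mod_cast this
        exact b1.trans (inn_block h hr1 he hx hs)
      refine (Finset.sum_le_sum e2).trans ?_
      rw [Finset.sum_const, nsmul_eq_mul]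
      have hcard : (((SS e J L).card : ℕ) : ℝ) ≤ (L + 1) * 2 ^ e := by
        unfold SS
        rw [Finset.card_product, Nat.card_Icc, Finset.card_range]
        push_cast
        refine mul_le_mul_of_nonneg_right ?_ (by positivity)
        have : L + 1 - J ≤ L + 1 := Nat.sub_le _ _
        exact_mod_cast this
      have h7 : (0 : ℝ) ≤ 36 * rho * x / (2 ^ e * 2 ^ e) := by positivity
      refine (mul_le_mul_of_nonneg_right hcard h7).trans (le_of_eq ?_)
      field_simp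
  have h7 : (x : ℝ) * U - ∑ n ∈ Finset.Icc 1 x, La p (SS e J L) (Ib e) n
      ≤ x * ((Real.log 2 * D - Real.log 2 * D') + 18 * rho + D' / 2 ^ e) + B := by
    have : (x : ℝ) * U = x * Real.log 2 * D + 16 * rho * x := by rw [hU]; ring
    have h8 : (x : ℝ) * (Real.log 2 - 1 / 2 ^ e) * D' = x * Real.log 2 * D' - x * (D' / 2 ^ e) := by
      ring
    rw [h8] at hlow
    rw [this]
    linarith
  calc ∑ n ∈ Finset.Icc 1 x, T n + ((x : ℝ) * U
        - ∑ n ∈ Finset.Icc 1 x, La p (SS e J L) (Ib e) n + x * |U - Real.log 2|)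
      ≤ (30 * rho * (x * U) + x * (36 * rho * (L + 1) / 2 ^ e))
        + ((x * ((Real.log 2 * D - Real.log 2 * D') + 18 * rho + D' / 2 ^ e) + B)
        + x * |U - Real.log 2|) := by linarith
    _ = x * (30 * rho * U + (Real.log 2 * D - Real.log 2 * D') + 18 * rho + D' / 2 ^ e
          + |U - Real.log 2| + 36 * rho * (L + 1) / 2 ^ e) + B := by
        ring

end

end Pool.Agent.helper306_cramer2
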