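import Pool.Agent.helper306_cramer.Finite

/-!
# Adding one element: the Mecke inequality
-/

namespace Pool.Agent.helper306_cramer2

open Finset Pool.Agent.helper306_cramer

lemma Ex_mem (p : ℕ → ℝ) {J : Finset ℕ} {m : ℕ} (hm : m ∈ J) (F : Finset ℕ → ℝ) :
    Ex p J (fun A => if m ∈ A then F A else 0) = p m * Ex p (J.erase m) (fun A => F (insert m A)) := by
  classical
  conv_lhs => rw [← Finset.insert_erase hm]
  rw [Ex_insert p (Finset.notMem_erase m J)]
  have h1 : Ex p (J.erase m) (fun A => if m ∈ A then F A else 0) = 0 := by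
    rw [Ex_congr (Ψ := fun _ => (0 : ℝ)), Ex_const]
    intro A hA
    rw [if_neg (fun h => Finset.notMem_erase m J (hA h))]
  have h2 : Ex p (J.erase m) (fun A => if m ∈ insert m A then F (insert m A) else 0)
      = Ex p (J.erase m) (fun A => F (insert m A)) :=
    Ex_congr (fun A _ => by rw [if_pos (Finset.mem_insert_self m A)])
  rw [h1, h2]; ring

lemma Ex_notMem (p : ℕ → ℝ) {J : Finset ℕ} {m : ℕ} (hm : m ∈ J) (F : Finset ℕ → ℝ) :
    Ex p J (fun A => if m ∉ A then F A else 0) = (1 - p m) * Ex p (J.erase m) F := by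
  classical
  conv_lhs => rw [← Finset.insert_erase hm]
  rw [Ex_insert p (Finset.notMem_erase m J)]
  have h1 : Ex p (J.erase m) (fun A => if m ∉ A then F A else 0) = Ex p (J.erase m) F :=
    Ex_congr (fun A hA => by rw [if_pos (fun h => Finset.notMem_erase m J (hA h))])
  have h2 : Ex p (J.erase m) (fun A => if m ∉ insert m A then F (insert m A) else 0) = 0 := by
    rw [Ex_congr (Ψ := fun _ => (0 : ℝ)), Ex_const]
    intro A _
    rw [if_neg (fun h => h (Finset.mem_insert_self m A))]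
  rw [h1, h2]; ring

lemma Ex_sum_mem (p : ℕ → ℝ) (J : Finset ℕ) (F : Finset ℕ → ℕ → ℝ) :
    Ex p J (fun A => ∑ m ∈ A, F A m)
      = ∑ m ∈ J, p m * Ex p (J.erase m) (fun A => F (insert m A) m) := by
  classical
  have h1 : Ex p J (fun A => ∑ m ∈ A, F A m) = Ex p J (fun A => ∑ m ∈ J, if m ∈ A then F A m else 0) := by
    refine Ex_congr (fun A hA => ?_)
    rw [← Finset.sum_filter, Finset.filter_mem_eq_inter, Finset.inter_eq_right.mpr hA]
  rw [h1, Ex_sum]
  exact Finset.sum_congr rfl (fun m hm => Ex_mem p hm (fun A => F A m))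

lemma Ex_sum_notMem (p : ℕ → ℝ) (J : Finset ℕ) (F : Finset ℕ → ℕ → ℝ) :
    Ex p J (fun A => ∑ m ∈ J \ A, F (insert m A) m)
      = ∑ m ∈ J, (1 - p m) * Ex p (J.erase m) (fun A => F (insert m A) m) := by
  classical
  have h1 : Ex p J (fun A => ∑ m ∈ J \ A, F (insert m A) m)
      = Ex p J (fun A => ∑ m ∈ J, if m ∉ A then F (insert m A) m else 0) := by
    refine Ex_congr (fun A _ => ?_)
    rw [← Finset.sum_filter, Finset.filter_notMem_eq_sdiff]
  rw [h1, Ex_sum]
  exact Finset.sum_congr rfl (fun m hm => Ex_notMem p hm (fun A => F (insert m A) m))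

/-- **Mecke inequality**, upper form -/
theorem mecke_le {p : ℕ → ℝ} (h0 : ∀ m, 0 ≤ p m) (h1 : ∀ m, p m ≤ 1) {J : Finset ℕ} {c : ℝ}
    (hc : ∀ m ∈ J, p m ≤ c * (1 - p m)) {F : Finset ℕ → ℕ → ℝ} (hF : ∀ A m, 0 ≤ F A m) :
    Ex p J (fun A => ∑ m ∈ A, F A m) ≤ c * Ex p J (fun A => ∑ m ∈ J \ A, F (insert m A) m) := by
  rw [Ex_sum_mem, Ex_sum_notMem, Finset.mul_sum]
  refine Finset.sum_le_sum (fun m hm => ?_)
  rw [← mul_assoc]
  exact mul_le_mul_of_nonneg_right (hc m hm) (Ex_nonneg h0 h1 (fun A _ => hF _ _))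

/-- **Mecke inequality**, lower form -/
theorem mecke_ge {p : ℕ → ℝ} (h0 : ∀ m, 0 ≤ p m) (h1 : ∀ m, p m ≤ 1) {J : Finset ℕ} {c : ℝ}
    (hc : ∀ m ∈ J, c * (1 - p m) ≤ p m) {F : Finset ℕ → ℕ → ℝ} (hF : ∀ A m, 0 ≤ F A m) :
    c * Ex p J (fun A => ∑ m ∈ J \ A, F (insert m A) m) ≤ Ex p J (fun A => ∑ m ∈ A, F A m) := by
  rw [Ex_sum_mem, Ex_sum_notMem, Finset.mul_sum]
  refine Finset.sum_le_sum (fun m hm => ?_)
  rw [← mul_assoc]
  exact mul_le_mul_of_nonneg_right (hc m hm) (Ex_nonneg h0 h1 (fun A _ => hF _ _))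

/-! ## Combinatorics of windows -/

/-- the sum of two sets of the same size, all the new elements being larger than the old ones -/
lemma sum_swap {S S' : Finset ℕ} {t : ℕ} (hc : S.card = S'.card)
    (h1 : ∀ x ∈ S \ S', x ≤ t) (h2 : ∀ x ∈ S' \ S, t < x) {a b : ℕ} (ha : a ∈ S \ S')
    (hb : b ∈ S' \ S) : ∑ x ∈ S, x + b ≤ ∑ x ∈ S', x + a := by
  classical
  have hcard : (S \ S').card = (S' \ S).card := by
    have e1 := Finset.card_sdiff_add_card_inter S S'
    have e2 := Finset.card_sdiff_add_card_inter S' S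
    rw [Finset.inter_comm] at e2
    omega
  have e1 : ∑ x ∈ S, x = ∑ x ∈ S \ S', x + ∑ x ∈ S ∩ S', x := by
    have := Finset.sum_inter_add_sum_sdiff S S' (fun x => x)
    omega
  have e2 : ∑ x ∈ S', x = ∑ x ∈ S' \ S, x + ∑ x ∈ S ∩ S', x := by
    have := Finset.sum_inter_add_sum_sdiff S' S (fun x => x)
    rw [Finset.inter_comm] at this
    omega
  have e3 : ∑ x ∈ S \ S', x = a + ∑ x ∈ (S \ S').erase a, x := (Finset.add_sum_erase _ _ ha).symm
  have e4 : ∑ x ∈ S' \ S, x = b + ∑ x ∈ (S' \ S).erase b, x := (Finset.add_sum_erase _ _ hb).symm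
  have e5 : ∑ x ∈ (S \ S').erase a, x ≤ ((S \ S').erase a).card * t := by
    have := Finset.sum_le_card_nsmul ((S \ S').erase a) (fun x => x) t
      (fun x hx => h1 x (Finset.mem_of_mem_erase hx))
    rwa [smul_eq_mul] at this
  have e6 : ((S' \ S).erase b).card * t ≤ ∑ x ∈ (S' \ S).erase b, x := by
    have := Finset.card_nsmul_le_sum ((S' \ S).erase b) (fun x => x) t
      (fun x hx => (h2 x (Finset.mem_of_mem_erase hx)).le)
    rwa [smul_eq_mul] at this
  have e7 : ((S \ S').erase a).card = ((S' \ S).erase b).card := by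
    rw [Finset.card_erase_of_mem ha, Finset.card_erase_of_mem hb, hcard]
  rw [e7] at e5
  omega

end Pool.Agent.helper306_cramer2
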