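import Pool.Agent.helper306_cramer2.Mecke

/-!
# The mean number of windows with a given number of elements
-/

namespace Pool.Agent.helper306_cramer2

open Finset Pool.Agent.helper306_cramer

/-- windows of `A` with `l` elements and sum `n` -/
def Wl (A : Finset ℕ) (l n : ℕ) : Finset (ℕ × ℕ) :=
  (Wn A).filter (fun ab => (sg A ab.1 ab.2).card = l ∧ ∑ m ∈ sg A ab.1 ab.2, m = n)

lemma mem_Wl {A : Finset ℕ} {l n : ℕ} {ab : ℕ × ℕ} : ab ∈ Wl A l n ↔
    ((ab.1 ∈ A ∧ ab.2 ∈ A) ∧ ab.1 ≤ ab.2) ∧ (sg A ab.1 ab.2).card = l ∧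
      ∑ m ∈ sg A ab.1 ab.2, m = n := by
  unfold Wl Wn
  rw [Finset.mem_filter, Finset.mem_filter, Finset.mem_product]

lemma cntl_eq (A : Finset ℕ) (l n : ℕ) : cntl A l n = (Wl A (l + 1) n).card := rfl

lemma sg_insert_mid {A : Finset ℕ} {m a b : ℕ} (h1 : a ≤ m) (h2 : m ≤ b) :
    sg (insert m A) a b = insert m (sg A a b) := by
  ext x
  rw [mem_sg, Finset.mem_insert, Finset.mem_insert, mem_sg]
  constructor
  · rintro ⟨h3 | h3, h4, h5⟩
    · exact Or.inl h3
    · exact Or.inr ⟨h3, h4, h5⟩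
  · rintro (h3 | ⟨h3, h4, h5⟩)
    · subst h3; exact ⟨Or.inl rfl, h1, h2⟩
    · exact ⟨Or.inr h3, h4, h5⟩

lemma notMem_sg {A : Finset ℕ} {m a b : ℕ} (h : m ∉ A) : m ∉ sg A a b := fun h' => h (mem_sg.mp h').1

/-- windows with the same size which are different -/
lemma sg_shift {A : Finset ℕ} {a b a' b' : ℕ} (ha : a ∈ A) (hb' : b' ∈ A) (hab : a ≤ b)
    (hab' : a' ≤ b') (hc : (sg A a b).card = (sg A a' b').card) (haa : a < a') :
    b < b' ∧ ∑ x ∈ sg A a b, x + b' ≤ ∑ x ∈ sg A a' b', x + a := by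
  have hbb : b < b' := by
    by_contra hcon
    push Not at hcon
    have h1 : sg A a' b' ⊂ sg A a b := by
      rw [Finset.ssubset_iff_of_subset]
      · exact ⟨a, mem_sg.mpr ⟨ha, le_rfl, hab⟩, fun h => by have := (mem_sg.mp h).2.1; omega⟩
      · intro x hx
        rw [mem_sg] at hx ⊢
        exact ⟨hx.1, by omega, by omega⟩
    have := Finset.card_lt_card h1
    omega
  refine ⟨hbb, ?_⟩
  refine sum_swap (t := b) hc ?_ ?_ ?_ ?_
  · intro x hx
    rw [Finset.mem_sdiff, mem_sg] at hx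
    exact hx.1.2.2
  · intro x hx
    rw [Finset.mem_sdiff, mem_sg, mem_sg] at hx
    by_contra hcon
    exact hx.2 ⟨hx.1.1, by omega, by omega⟩
  · rw [Finset.mem_sdiff, mem_sg, mem_sg]
    exact ⟨⟨ha, le_rfl, hab⟩, fun h => by omega⟩
  · rw [Finset.mem_sdiff, mem_sg, mem_sg]
    exact ⟨⟨hb', hab', le_rfl⟩, fun h => by omega⟩

/-- windows which contain `m` in their interior -/
def Wm (A : Finset ℕ) (l n m : ℕ) : Finset (ℕ × ℕ) :=
  (Wl A l n).filter (fun ab => ab.1 < m ∧ m < ab.2)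

/-- windows which end at `m` -/
def We (A : Finset ℕ) (l n m : ℕ) : Finset (ℕ × ℕ) :=
  (Wl A l n).filter (fun ab => ab.2 = m)

lemma Wm_insert {A : Finset ℕ} {l n m : ℕ} (hm : m ∉ A) {ab : ℕ × ℕ} (h : ab ∈ Wm (insert m A) l n m) :
    ab.1 ∈ A ∧ ab.2 ∈ A ∧ ab.1 < m ∧ m < ab.2 ∧ (sg A ab.1 ab.2).card + 1 = l ∧
      ∑ x ∈ sg A ab.1 ab.2, x + m = n := by
  unfold Wm at h
  rw [Finset.mem_filter, mem_Wl] at h
  obtain ⟨⟨⟨⟨h1, h2⟩, h3⟩, h4, h5⟩, h6, h7⟩ := h
  rw [sg_insert_mid h6.le h7.le] at h4 h5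
  rw [Finset.card_insert_of_notMem (notMem_sg hm)] at h4
  rw [Finset.sum_insert (notMem_sg hm)] at h5
  rw [Finset.mem_insert] at h1 h2
  refine ⟨?_, ?_, h6, h7, h4, by omega⟩
  · rcases h1 with h1 | h1
    · omega
    · exact h1
  · rcases h2 with h2 | h2
    · omega
    · exact h2

/-- uniqueness after insertion in the interior -/
lemma Wm_unique {A : Finset ℕ} {l n m m' : ℕ} (hm : m ∉ A) (hm' : m' ∉ A) {ab ab' : ℕ × ℕ}
    (h : ab ∈ Wm (insert m A) l n m) (h' : ab' ∈ Wm (insert m' A) l n m') : m = m' ∧ ab = ab' := by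
  obtain ⟨h1, h2, h3, h4, h5, h6⟩ := Wm_insert hm h
  obtain ⟨g1, g2, g3, g4, g5, g6⟩ := Wm_insert hm' h'
  have key : ∀ {u v u' v' w w' : ℕ}, u ∈ A → v ∈ A → u < w → w < v → u' ∈ A → v' ∈ A → u' < w' →
      w' < v' → (sg A u v).card = (sg A u' v').card → ∑ x ∈ sg A u v, x + w = n →
      ∑ x ∈ sg A u' v', x + w' = n → ¬ u < u' := by
    intro u v u' v' w w' a1 a2 a3 a4 a5 a6 a7 a8 a9 a10 a11 a12
    obtain ⟨b1, b2⟩ := sg_shift a1 a6 (by omega : u ≤ v) (by omega : u' ≤ v') a9 a12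
    omega
  have hc : (sg A ab.1 ab.2).card = (sg A ab'.1 ab'.2).card := by omega
  have e1 : ab.1 = ab'.1 := by
    have k1 := key h1 h2 h3 h4 g1 g2 g3 g4 hc h6 g6
    have k2 := key g1 g2 g3 g4 h1 h2 h3 h4 hc.symm g6 h6
    omega
  have e2 : ab.2 = ab'.2 := by
    rcases Nat.lt_trichotomy ab.2 ab'.2 with h | h | h
    · exfalso
      have : sg A ab.1 ab.2 ⊂ sg A ab'.1 ab'.2 := by
        rw [Finset.ssubset_iff_of_subset]
        · exact ⟨ab'.2, mem_sg.mpr ⟨g2, by omega, le_rfl⟩, fun h => by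
            have := (mem_sg.mp h).2.2; omega⟩
        · intro x hx
          rw [mem_sg] at hx ⊢
          exact ⟨hx.1, by omega, by omega⟩
      have := Finset.card_lt_card this
      omega
    · exact h
    · exfalso
      have : sg A ab'.1 ab'.2 ⊂ sg A ab.1 ab.2 := by
        rw [Finset.ssubset_iff_of_subset]
        · exact ⟨ab.2, mem_sg.mpr ⟨h2, by omega, le_rfl⟩, fun h => by
            have := (mem_sg.mp h).2.2; omega⟩
        · intro x hx
          rw [mem_sg] at hx ⊢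
          exact ⟨hx.1, by omega, by omega⟩
      have := Finset.card_lt_card this
      omega
  have e3 : m = m' := by rw [e1, e2] at h6; omega
  exact ⟨e3, Prod.ext e1 e2⟩

lemma sum_card_le_one {J A : Finset ℕ} {W : ℕ → Finset (ℕ × ℕ)}
    (h : ∀ m ∈ J \ A, ∀ m' ∈ J \ A, ∀ ab ∈ W m, ∀ ab' ∈ W m', m = m' ∧ ab = ab') :
    ∑ m ∈ J \ A, (W m).card ≤ 1 := by
  classical
  rw [← Finset.card_sigma]
  rw [Finset.card_le_one]
  rintro ⟨m, ab⟩ h1 ⟨m', ab'⟩ h2
  rw [Finset.mem_sigma] at h1 h2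
  obtain ⟨e1, e2⟩ := h m h1.1 m' h2.1 ab h1.2 ab' h2.2
  subst e1; subst e2; rfl

/-- the mean number of windows with `l ≥ 3` elements and sum `n` -/
lemma Ex_Wl_le {p : ℕ → ℝ} (h0 : ∀ m, 0 ≤ p m) (h1 : ∀ m, p m ≤ 1) {J : Finset ℕ} {c : ℝ}
    (hc : ∀ m ∈ J, p m ≤ c * (1 - p m)) (hc0 : 0 ≤ c) {l : ℕ} (hl : 3 ≤ l) (n : ℕ) :
    Ex p J (fun A => ((Wl A l n).card : ℝ)) ≤ c / ((l : ℝ) - 2) := by
  classical
  have hl' : (3 : ℝ) ≤ l := by exact_mod_cast hl
  rw [le_div_iff₀ (by linarith)]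
  have e1 : Ex p J (fun A => ((Wl A l n).card : ℝ)) * ((l : ℝ) - 2)
      = Ex p J (fun A => ∑ m ∈ A, ((Wm A l n m).card : ℝ)) := by
    rw [mul_comm, ← Ex_mul_left]
    refine Ex_congr (fun A _ => ?_)
    have h2 : ∑ m ∈ A, (Wm A l n m).card = (l - 2) * (Wl A l n).card := by
      unfold Wm
      simp_rw [Finset.card_filter]
      rw [Finset.sum_comm]
      have h3 : ∀ ab ∈ Wl A l n, ∑ m ∈ A, (if ab.1 < m ∧ m < ab.2 then 1 else 0) = l - 2 := by
        intro ab hab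
        rw [mem_Wl] at hab
        obtain ⟨⟨⟨a1, a2⟩, a3⟩, a4, a5⟩ := hab
        rw [← Finset.card_filter]
        have hne : ab.1 ≠ ab.2 := by
          intro he
          have : sg A ab.1 ab.2 ⊆ {ab.1} := by
            intro x hx
            rw [mem_sg] at hx
            rw [Finset.mem_singleton]; omega
          have := Finset.card_le_card this
          rw [Finset.card_singleton] at this
          omega
        have h4 : A.filter (fun m => ab.1 < m ∧ m < ab.2) = ((sg A ab.1 ab.2).erase ab.1).erase ab.2 := by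
          ext x
          rw [Finset.mem_filter, Finset.mem_erase, Finset.mem_erase, mem_sg]
          constructor
          · rintro ⟨b1, b2, b3⟩; exact ⟨by omega, by omega, b1, by omega, by omega⟩
          · rintro ⟨b1, b2, b3, b4, b5⟩; exact ⟨b3, by omega, by omega⟩
        have m1 : ab.1 ∈ sg A ab.1 ab.2 := mem_sg.mpr ⟨a1, le_rfl, a3⟩
        have m2 : ab.2 ∈ (sg A ab.1 ab.2).erase ab.1 :=
          Finset.mem_erase.mpr ⟨hne.symm, mem_sg.mpr ⟨a2, a3, le_rfl⟩⟩
        rw [h4, Finset.card_erase_of_mem m2, Finset.card_erase_of_mem m1, a4]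
        omega
      rw [Finset.sum_congr rfl h3, Finset.sum_const, smul_eq_mul, mul_comm]
    have h3 : ((l - 2 : ℕ) : ℝ) = (l : ℝ) - 2 := by
      rw [Nat.cast_sub (by omega)]; norm_num
    rw [← h3]
    exact_mod_cast h2.symm
  rw [e1]
  refine (mecke_le h0 h1 hc (F := fun A m => ((Wm A l n m).card : ℝ))
    (fun _ _ => Nat.cast_nonneg _)).trans ?_
  have h2 : Ex p J (fun A => ∑ m ∈ J \ A, ((Wm (insert m A) l n m).card : ℝ)) ≤ 1 := by
    refine Ex_le_const h0 h1 (fun A _ => ?_)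
    have := sum_card_le_one (J := J) (A := A) (W := fun m => Wm (insert m A) l n m)
      (fun m hm m' hm' ab hab ab' hab' =>
        Wm_unique (Finset.mem_sdiff.mp hm).2 (Finset.mem_sdiff.mp hm').2 hab hab')
    exact_mod_cast this
  nlinarith

/-- windows of `insert m A` which end at `m` -/
lemma We_insert {A : Finset ℕ} {l n m : ℕ} (hm : m ∉ A) {ab : ℕ × ℕ} (h : ab ∈ We (insert m A) l n m) :
    ab.2 = m ∧ ab.1 ∈ insert m A ∧ ab.1 ≤ m ∧ (sg A ab.1 m).card + 1 = l ∧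
      ∑ x ∈ sg A ab.1 m, x + m = n := by
  unfold We at h
  rw [Finset.mem_filter, mem_Wl] at h
  obtain ⟨⟨⟨⟨h1, h2⟩, h3⟩, h4, h5⟩, h6⟩ := h
  rw [h6] at h2 h3 h4 h5
  rw [sg_insert_mid h3 le_rfl] at h4 h5
  rw [Finset.card_insert_of_notMem (notMem_sg hm)] at h4
  rw [Finset.sum_insert (notMem_sg hm)] at h5
  exact ⟨h6, h1, h3, h4, by omega⟩

/-- the last elements of `A` below two points -/
lemma sum_last_le {A : Finset ℕ} {a a' m m' : ℕ} (hmm : m ≤ m')
    (hc : (sg A a m).card = (sg A a' m').card) : ∑ x ∈ sg A a m, x ≤ ∑ x ∈ sg A a' m', x := by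
  classical
  rcases Nat.lt_or_ge a a' with h | h
  · -- the new elements are above `m`
    rcases Finset.eq_empty_or_nonempty (sg A a m \ sg A a' m') with he | ⟨u, hu⟩
    · rw [Finset.sdiff_eq_empty_iff_subset] at he
      exact Finset.sum_le_sum_of_subset he
    · have hne : (sg A a' m' \ sg A a m).Nonempty := by
        rw [← Finset.card_pos]
        have e1 := Finset.card_sdiff_add_card_inter (sg A a m) (sg A a' m')
        have e2 := Finset.card_sdiff_add_card_inter (sg A a' m') (sg A a m)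
        rw [Finset.inter_comm] at e2
        have := Finset.card_pos.mpr ⟨u, hu⟩
        omega
      obtain ⟨v, hv⟩ := hne
      have hu1 : u ≤ m := (mem_sg.mp (Finset.mem_sdiff.mp hu).1).2.2
      have hv1 : m < v := by
        rw [Finset.mem_sdiff, mem_sg, mem_sg] at hv
        by_contra hcon
        exact hv.2 ⟨hv.1.1, by omega, by omega⟩
      have h2 := sum_swap (S := sg A a m) (S' := sg A a' m') (t := m) hc (fun x hx =>
        (mem_sg.mp (Finset.mem_sdiff.mp hx).1).2.2) (fun x hx => by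
          rw [Finset.mem_sdiff, mem_sg, mem_sg] at hx
          by_contra hcon
          exact hx.2 ⟨hx.1.1, by omega, by omega⟩) hu hv
      omega
  · refine Finset.sum_le_sum_of_subset (fun x hx => ?_)
    rw [mem_sg] at hx ⊢
    exact ⟨hx.1, by omega, by omega⟩

lemma We_unique {A : Finset ℕ} {l n m m' : ℕ} (hm : m ∉ A) (hm' : m' ∉ A) {ab ab' : ℕ × ℕ}
    (h : ab ∈ We (insert m A) l n m) (h' : ab' ∈ We (insert m' A) l n m') : m = m' ∧ ab = ab' := by
  obtain ⟨h1, h2, h3, h4, h5⟩ := We_insert hm h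
  obtain ⟨g1, g2, g3, g4, g5⟩ := We_insert hm' h'
  have hc : (sg A ab.1 m).card = (sg A ab'.1 m').card := by omega
  have e3 : m = m' := by
    rcases Nat.lt_trichotomy m m' with h | h | h
    · have := sum_last_le h.le hc; omega
    · exact h
    · have := sum_last_le h.le hc.symm; omega
  subst e3
  have key : ∀ {u u' : ℕ}, u ∈ insert m A → u ≤ m → u' ≤ m →
      (sg A u m).card = (sg A u' m).card → ¬ u < u' := by
    intro u u' a1 a2 a3 a4 a5
    rw [Finset.mem_insert] at a1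
    rcases a1 with a1 | a1
    · omega
    · have : sg A u' m ⊂ sg A u m := by
        rw [Finset.ssubset_iff_of_subset]
        · exact ⟨u, mem_sg.mpr ⟨a1, le_rfl, a2⟩, fun h => by have := (mem_sg.mp h).2.1; omega⟩
        · intro x hx
          rw [mem_sg] at hx ⊢
          exact ⟨hx.1, by omega, by omega⟩
      have := Finset.card_lt_card this
      omega
  have k1 := key h2 h3 g3 hc
  have k2 := key g2 g3 h3 hc.symm
  exact ⟨rfl, Prod.ext (by omega) (by omega)⟩

/-- the mean number of windows with `l` elements and sum `n` -/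
lemma Ex_Wl_le' {p : ℕ → ℝ} (h0 : ∀ m, 0 ≤ p m) (h1 : ∀ m, p m ≤ 1) {J : Finset ℕ} {c : ℝ}
    (hc : ∀ m ∈ J, p m ≤ c * (1 - p m)) (hc0 : 0 ≤ c) (l n : ℕ) :
    Ex p J (fun A => ((Wl A l n).card : ℝ)) ≤ c := by
  classical
  have e1 : Ex p J (fun A => ((Wl A l n).card : ℝ))
      = Ex p J (fun A => ∑ m ∈ A, ((We A l n m).card : ℝ)) := by
    refine Ex_congr (fun A _ => ?_)
    have h2 : ∑ m ∈ A, (We A l n m).card = (Wl A l n).card := by
      unfold We
      rw [← Finset.card_eq_sum_card_fiberwise]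
      intro ab hab
      exact (mem_Wl.mp hab).1.1.2
    exact_mod_cast h2.symm
  rw [e1]
  refine (mecke_le h0 h1 hc (F := fun A m => ((We A l n m).card : ℝ))
    (fun _ _ => Nat.cast_nonneg _)).trans ?_
  have h2 : Ex p J (fun A => ∑ m ∈ J \ A, ((We (insert m A) l n m).card : ℝ)) ≤ 1 := by
    refine Ex_le_const h0 h1 (fun A _ => ?_)
    have := sum_card_le_one (J := J) (A := A) (W := fun m => We (insert m A) l n m)
      (fun m hm m' hm' ab hab ab' hab' =>
        We_unique (Finset.mem_sdiff.mp hm).2 (Finset.mem_sdiff.mp hm').2 hab hab')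
    exact_mod_cast this
  nlinarith

/-- **The mean number of windows with a given number of elements.** -/
theorem Ex_cntl_le2 {p : ℕ → ℝ} (h0 : ∀ m, 0 ≤ p m) (h1 : ∀ m, p m ≤ 1) {J : Finset ℕ} {c : ℝ}
    (hc : ∀ m ∈ J, p m ≤ c * (1 - p m)) (hc0 : 0 ≤ c) (m n : ℕ) :
    Ex p J (fun A => (cntl A m n : ℝ)) ≤ c * (1 / ((m : ℝ) + 1) + 6 / ((m : ℝ) + 1) ^ 2) := by
  have e1 : Ex p J (fun A => (cntl A m n : ℝ)) = Ex p J (fun A => ((Wl A (m + 1) n).card : ℝ)) := rfl
  rw [e1]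
  have hm0 : (0 : ℝ) ≤ m := Nat.cast_nonneg m
  rcases Nat.lt_or_ge m 2 with h | h
  · refine (Ex_Wl_le' h0 h1 hc hc0 (m + 1) n).trans ?_
    have : (1 : ℝ) ≤ 1 / ((m : ℝ) + 1) + 6 / ((m : ℝ) + 1) ^ 2 := by
      interval_cases m <;> norm_num
    nlinarith
  · refine (Ex_Wl_le h0 h1 hc hc0 (by omega : 3 ≤ m + 1) n).trans ?_
    have h2 : (2 : ℝ) ≤ m := by exact_mod_cast h
    push_cast
    rw [div_eq_mul_one_div]
    refine mul_le_mul_of_nonneg_left ?_ hc0
    rw [div_add_div _ _ (by positivity) (by positivity), div_le_div_iff₀ (by linarith) (by positivity)]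
    nlinarith [sq_nonneg ((m : ℝ) - 2), mul_nonneg (mul_nonneg hm0 hm0) (by linarith : (0:ℝ) ≤ m - 2)]

end Pool.Agent.helper306_cramer2
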