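import Pool.Agent.helper306_cramer2.Inn2

/-!
# The sums over all the blocks, for general densities
-/

namespace Pool.Agent.helper306_cramer2

open Finset Pool.Agent.helper306_cramer

/-- bounds for the densities on dyadic intervals -/
structure CB (p cu cl : ℕ → ℝ) (rho : ℝ) (J : ℕ) : Prop where
  nonneg : ∀ m, 0 ≤ p m
  le_one : ∀ m, p m ≤ 1
  up : ∀ j, J ≤ j → ∀ m, 2 ^ j ≤ m → m < 2 ^ (j + 1) → p m ≤ cu j * (1 - p m)
  low : ∀ j, J ≤ j → ∀ m, 2 ^ j ≤ m → m < 2 ^ (j + 1) → cl j ≤ p m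
  cu_le : ∀ j, J ≤ j → cu j ≤ rho
  cl_pos : ∀ j, J ≤ j → 0 < cl j
  ratio : ∀ j, J ≤ j → cu j ≤ 4 * cl j

lemma CB.cl_le {p cu cl : ℕ → ℝ} {rho : ℝ} {J : ℕ} (h : CB p cu cl rho J) {j : ℕ} (hj : J ≤ j) :
    cl j ≤ cu j := by
  have hlt : 2 ^ j < 2 ^ (j + 1) := Nat.pow_lt_pow_right (by norm_num) (by omega)
  have h1 := h.up j hj (2 ^ j) le_rfl hlt
  have h2 := h.low j hj (2 ^ j) le_rfl hlt
  have h3 := h.cl_pos j hj
  have h4 := h.le_one (2 ^ j)
  by_contra hcon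
  push Not at hcon
  by_cases h5 : cu j ≤ 0
  · have h6 : cu j * (1 - p (2 ^ j)) ≤ 0 := mul_nonpos_of_nonpos_of_nonneg h5 (by linarith)
    linarith
  · push Not at h5
    have h6 : cu j * (1 - p (2 ^ j)) ≤ cu j * 1 := mul_le_mul_of_nonneg_left (by linarith) h5.le
    linarith

lemma CB.cu_pos {p cu cl : ℕ → ℝ} {rho : ℝ} {J : ℕ} (h : CB p cu cl rho J) {j : ℕ} (hj : J ≤ j) :
    0 < cu j := lt_of_lt_of_le (h.cl_pos j hj) (h.cl_le hj)

lemma CB.rho_pos {p cu cl : ℕ → ℝ} {rho : ℝ} {J : ℕ} (h : CB p cu cl rho J) : 0 < rho :=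
  lt_of_lt_of_le (h.cu_pos le_rfl) (h.cu_le J le_rfl)

lemma mem_dyadic {e J L : ℕ} (he : e ≤ J) {s : ℕ × ℕ} (hs : s ∈ SS e J L) {m : ℕ}
    (hm : m ∈ Ib e s) : 2 ^ s.1 ≤ m ∧ m < 2 ^ (s.1 + 1) := by
  rw [mem_SS] at hs
  unfold Ib at hm
  rw [Finset.mem_Ico] at hm
  have h1 := yb_ge (e := e) (s := s) (by omega)
  have h2 := yb_add_le (e := e) (s := s) (by omega) hs.2
  omega

/-- mean number of windows of one block -/
lemma Ex_cnt_le2 {p : ℕ → ℝ} (hp0 : ∀ m, 0 ≤ p m) (hp1 : ∀ m, p m ≤ 1) {c : ℝ} {y L : ℕ}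
    (hy : 1 ≤ y) (hc : ∀ m ∈ Finset.Ico y (y + L), p m ≤ c * (1 - p m)) (h0 : 0 ≤ c) (n : ℕ) :
    Ex p (Finset.Ico y (y + L)) (fun A => (cnt A n : ℝ))
      ≤ ∑ l ∈ Finset.Icc 1 n, if n / l ∈ Finset.Ico y (y + L) then
          c * (1 / (l : ℝ) + 6 / (l : ℝ) ^ 2) else 0 := by
  classical
  have e1 : Ex p (Finset.Ico y (y + L)) (fun A => (cnt A n : ℝ))
      = ∑ m ∈ Finset.range n, Ex p (Finset.Ico y (y + L)) (fun A => (cntl A m n : ℝ)) := by
    rw [← Ex_sum]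
    exact Ex_congr (fun A hA => by rw [cnt_eq_sum_cntl hy hA]; push_cast; rfl)
  have e2 : ∑ l ∈ Finset.Icc 1 n, (if n / l ∈ Finset.Ico y (y + L) then
          c * (1 / (l : ℝ) + 6 / (l : ℝ) ^ 2) else 0)
      = ∑ m ∈ Finset.range n, (if n / (m + 1) ∈ Finset.Ico y (y + L) then
          c * (1 / ((m : ℝ) + 1) + 6 / ((m : ℝ) + 1) ^ 2) else 0) := by
    have : Finset.Icc 1 n = (Finset.range n).image (fun m => m + 1) := by
      ext l
      simp only [Finset.mem_Icc, Finset.mem_image, Finset.mem_range]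
      constructor
      · intro h; exact ⟨l - 1, by omega, by omega⟩
      · rintro ⟨m, hm, rfl⟩; omega
    rw [this, Finset.sum_image (fun a _ b _ h => by simpa using h)]
    refine Finset.sum_congr rfl (fun m _ => ?_)
    push_cast
    rfl
  rw [e1, e2]
  refine Finset.sum_le_sum (fun m _ => ?_)
  split_ifs with h
  · exact Ex_cntl_le2 hp0 hp1 hc h0 m n
  · rw [Ex_congr (Ψ := fun _ => (0 : ℝ)) (fun A hA => by rw [cntl_eq_zero hA h]; simp), Ex_const]

lemma sum_inv_sq_le (T : Finset ℕ) (hT : ∀ l ∈ T, 1 ≤ l) : ∑ l ∈ T, 6 / (l : ℝ) ^ 2 ≤ 12 := by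
  have h1 : ∑ l ∈ T, 6 / (l : ℝ) ^ 2 ≤ ∑ l ∈ Finset.Ico 1 (T.sup id + 2), 6 / (l : ℝ) ^ 2 := by
    refine Finset.sum_le_sum_of_subset_of_nonneg (fun l hl => ?_) (fun _ _ _ => by positivity)
    rw [Finset.mem_Ico]
    have := Finset.le_sup (f := id) hl
    simp only [id] at this
    exact ⟨hT l hl, by omega⟩
  refine h1.trans ?_
  have h2 : ∀ N : ℕ, ∑ l ∈ Finset.Ico 1 (N + 2), 6 / (l : ℝ) ^ 2 ≤ 12 - 6 / ((N : ℝ) + 1) := by
    intro N
    induction N with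
    | zero => norm_num
    | succ N ih =>
      rw [Finset.sum_Ico_succ_top (by omega)]
      have hN : (0 : ℝ) ≤ N := Nat.cast_nonneg N
      push_cast
      have e1 : (6 : ℝ) / ((N : ℝ) + 1) - 6 / ((N : ℝ) + 1 + 1) = 6 / (((N : ℝ) + 1) * (N + 2)) := by
        field_simp; ring
      have h3 : 6 / ((N : ℝ) + 1 + 1) ^ 2 ≤ 6 / (((N : ℝ) + 1) * (N + 2)) := by
        refine div_le_div_of_nonneg_left (by norm_num) (by positivity) ?_
        nlinarith
      have e2 : (N : ℝ) + 1 + 1 = N + 2 := by ring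
      rw [e2] at h3 e1 ⊢
      linarith
  refine (h2 _).trans ?_
  have : (0 : ℝ) ≤ 6 / (((T.sup id : ℕ) : ℝ) + 1) := by positivity
  linarith

section
variable {p cu cl : ℕ → ℝ} {rho : ℝ} {e J L : ℕ}

lemma lam_le2 (h : CB p cu cl rho J) (he : e ≤ J) {s : ℕ × ℕ} (hs : s ∈ SS e J L) (n : ℕ) :
    Ex p (Ib e s) (fun A => (cnt A n : ℝ))
      ≤ ∑ l ∈ Finset.Icc 1 n, if n / l ∈ Ib e s then
          cu s.1 * (1 / (l : ℝ) + 6 / (l : ℝ) ^ 2) else 0 := by
  have hs' := mem_SS.mp hs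
  refine Ex_cnt_le2 h.nonneg h.le_one (yb_pos e s) (fun m hm => ?_) (h.cu_pos hs'.1.1).le n
  have := mem_dyadic he hs hm
  exact h.up s.1 hs'.1.1 m this.1 this.2

lemma lam_max2 (h : CB p cu cl rho J) (he : e ≤ J) {s : ℕ × ℕ} (hs : s ∈ SS e J L) (n : ℕ) :
    Ex p (Ib e s) (fun A => (cnt A n : ℝ)) ≤ 15 * rho := by
  have hs' := mem_SS.mp hs
  have hr0 := h.rho_pos
  have hcu := h.cu_pos hs'.1.1
  refine (lam_le2 h he hs n).trans ?_
  have h1 : ∑ l ∈ Finset.Icc 1 n, (if n / l ∈ Ib e s then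
          cu s.1 * (1 / (l : ℝ) + 6 / (l : ℝ) ^ 2) else 0)
      ≤ ∑ l ∈ (Finset.Icc 1 n).filter (fun l => Nat.log 2 (n / l) = s.1 ∧ 1 ≤ n / l),
          rho * (1 / (l : ℝ) + 6 / (l : ℝ) ^ 2) := by
    rw [← Finset.sum_filter]
    refine le_trans (Finset.sum_le_sum_of_subset_of_nonneg
      (t := (Finset.Icc 1 n).filter (fun l => Nat.log 2 (n / l) = s.1 ∧ 1 ≤ n / l)) ?_ ?_) ?_
    · intro l hl
      rw [Finset.mem_filter] at hl ⊢
      refine ⟨hl.1, log_of_mem (by omega) hs'.2 hl.2, ?_⟩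
      have := hl.2
      unfold Ib at this
      rw [Finset.mem_Ico] at this
      have := yb_pos e s
      omega
    · intro l _ _
      exact mul_nonneg hcu.le (by positivity)
    · refine Finset.sum_le_sum (fun l _ => ?_)
      exact mul_le_mul_of_nonneg_right (h.cu_le s.1 hs'.1.1) (by positivity)
  refine h1.trans ?_
  rw [← Finset.mul_sum, Finset.sum_add_distrib]
  have h2 : ∑ l ∈ (Finset.Icc 1 n).filter (fun l => Nat.log 2 (n / l) = s.1 ∧ 1 ≤ n / l),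
      1 / (l : ℝ) ≤ Real.log 2 + 2 := by
    rcases Nat.lt_or_ge n (2 ^ s.1) with h | h
    · rw [Hj_zero h]; have := Real.log_nonneg (x := 2) (by norm_num); linarith
    · refine (Hj_le h).trans (add_le_add le_rfl ?_)
      have hn0 : (0 : ℝ) < n := by
        have : 0 < 2 ^ s.1 := by positivity
        have : 0 < n := by omega
        exact_mod_cast this
      rw [div_le_iff₀ hn0, pow_succ]
      have : ((2 : ℝ) ^ s.1) ≤ n := by exact_mod_cast h
      linarith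
  have h3 : ∑ l ∈ (Finset.Icc 1 n).filter (fun l => Nat.log 2 (n / l) = s.1 ∧ 1 ≤ n / l),
      6 / (l : ℝ) ^ 2 ≤ 12 := sum_inv_sq_le _ (fun l hl => by
        rw [Finset.mem_filter, Finset.mem_Icc] at hl; exact hl.1.1)
  have h4 : Real.log 2 ≤ 1 := by
    have := Real.log_two_lt_d9; linarith
  nlinarith

/-- upper bound for the mean number of windows -/
theorem La_le2 (h : CB p cu cl rho J) (he : e ≤ J) {n : ℕ} (hn : 1 ≤ n) :
    La p (SS e J L) (Ib e) n ≤ Real.log 2 * ∑ j ∈ Finset.Icc J L, cu j + 16 * rho := by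
  classical
  have hr0 := h.rho_pos
  have hn0 : (0 : ℝ) < n := by exact_mod_cast hn
  unfold La
  have h1 : ∑ s ∈ SS e J L, Ex p (Ib e s) (fun A => (cnt A n : ℝ))
      ≤ ∑ s ∈ SS e J L, ∑ l ∈ Finset.Icc 1 n, if n / l ∈ Ib e s then
          cu s.1 * (1 / (l : ℝ) + 6 / (l : ℝ) ^ 2) else 0 :=
    Finset.sum_le_sum (fun s hs => lam_le2 h he hs n)
  refine h1.trans ?_
  rw [Finset.sum_comm]
  have h2 : ∀ l ∈ Finset.Icc 1 n, ∑ s ∈ SS e J L, (if n / l ∈ Ib e s then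
          cu s.1 * (1 / (l : ℝ) + 6 / (l : ℝ) ^ 2) else 0)
      ≤ (∑ j ∈ Finset.Icc J L, if Nat.log 2 (n / l) = j ∧ 1 ≤ n / l then cu j * (1 / (l : ℝ)) else 0)
        + rho * (6 / (l : ℝ) ^ 2) := by
    intro l hl
    by_cases hex : ∃ s ∈ SS e J L, n / l ∈ Ib e s
    · obtain ⟨s, hs, hmem⟩ := hex
      have hs' := mem_SS.mp hs
      have hlog := log_of_mem (by omega) hs'.2 hmem
      have hge : 1 ≤ n / l := by
        have := hmem
        unfold Ib at this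
        rw [Finset.mem_Ico] at this
        have := yb_pos e s
        omega
      rw [Finset.sum_eq_single s]
      · rw [if_pos hmem]
        have h3 : ∑ j ∈ Finset.Icc J L, (if Nat.log 2 (n / l) = j ∧ 1 ≤ n / l then
            cu j * (1 / (l : ℝ)) else 0) = cu s.1 * (1 / (l : ℝ)) := by
          rw [Finset.sum_eq_single s.1]
          · rw [if_pos ⟨hlog, hge⟩]
          · intro j _ hj
            rw [if_neg]; rintro ⟨h, _⟩; exact hj (h.symm.trans hlog)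
          · intro h; exact absurd (Finset.mem_Icc.mpr hs'.1) h
        rw [h3, mul_add]
        refine add_le_add le_rfl (mul_le_mul_of_nonneg_right (h.cu_le _ hs'.1.1) (by positivity))
      · intro s'' hs'' hne
        rw [if_neg]
        intro hm
        exact hne (block_unique he hs'' hs hm hmem)
      · intro h; exact absurd hs h
    · rw [Finset.sum_eq_zero]
      · refine add_nonneg (Finset.sum_nonneg (fun j hj => ?_)) (by positivity)
        split_ifs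
        · exact mul_nonneg (h.cu_pos (Finset.mem_Icc.mp hj).1).le (by positivity)
        · exact le_rfl
      · intro s hs
        rw [if_neg (fun h => hex ⟨s, hs, h⟩)]
  refine (Finset.sum_le_sum h2).trans ?_
  rw [Finset.sum_add_distrib, ← Finset.mul_sum, Finset.sum_comm]
  have h3 : ∑ l ∈ Finset.Icc 1 n, 6 / (l : ℝ) ^ 2 ≤ 12 :=
    sum_inv_sq_le _ (fun l hl => (Finset.mem_Icc.mp hl).1)
  have h4 : ∀ j ∈ Finset.Icc J L, ∑ l ∈ Finset.Icc 1 n,
      (if Nat.log 2 (n / l) = j ∧ 1 ≤ n / l then cu j * (1 / (l : ℝ)) else 0)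
      ≤ Real.log 2 * cu j + (if 2 ^ j ≤ n then rho * (2 ^ (j + 1) / n) else 0) := by
    intro j hj
    rw [← Finset.sum_filter, ← Finset.mul_sum]
    have hcu := h.cu_pos (Finset.mem_Icc.mp hj).1
    by_cases h' : 2 ^ j ≤ n
    · rw [if_pos h']
      have h5 := Hj_le h'
      have h6 := h.cu_le j (Finset.mem_Icc.mp hj).1
      have h7 : (0 : ℝ) ≤ 2 ^ (j + 1) / n := by positivity
      calc cu j * _ ≤ cu j * (Real.log 2 + 2 ^ (j + 1) / n) := mul_le_mul_of_nonneg_left h5 hcu.le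
        _ = Real.log 2 * cu j + cu j * (2 ^ (j + 1) / n) := by ring
        _ ≤ Real.log 2 * cu j + rho * (2 ^ (j + 1) / n) :=
          add_le_add le_rfl (mul_le_mul_of_nonneg_right h6 h7)
    · rw [if_neg h', Hj_zero (by omega), mul_zero, add_zero]
      exact mul_nonneg (Real.log_nonneg (by norm_num)) hcu.le
  have h5 := Finset.sum_le_sum h4
  rw [Finset.sum_add_distrib, ← Finset.mul_sum, ← Finset.sum_filter, ← Finset.mul_sum,
    ← Finset.sum_div] at h5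
  have h6 := two_pow_sum_le hn J L
  have h7 : rho * ((∑ j ∈ (Finset.Icc J L).filter (fun j => 2 ^ j ≤ n), (2 : ℝ) ^ (j + 1)) / n)
      ≤ rho * 4 := by
    refine mul_le_mul_of_nonneg_left ?_ hr0.le
    rw [div_le_iff₀ hn0]; exact h6
  nlinarith

/-- lower bound for the total mean number of windows -/
theorem sum_La_ge2 (h : CB p cu cl rho J) (he : e ≤ J) {x : ℕ} (hx : 2 ^ L ≤ x) :
    (x : ℝ) * (Real.log 2 - 1 / 2 ^ e) * ∑ j ∈ Finset.Icc J L, cl j - 2 * rho * x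
      - (L + 1) * 2 ^ e * ((x : ℝ) / 2 ^ J) ^ 2
    ≤ ∑ n ∈ Finset.Icc 1 x, La p (SS e J L) (Ib e) n := by
  classical
  have hr0 := h.rho_pos
  have hx0 : (0 : ℝ) ≤ x := Nat.cast_nonneg x
  unfold La
  rw [Finset.sum_comm]
  have h1 : ∀ s ∈ SS e J L, cl s.1 * (x / ((2 : ℝ) ^ e + s.2 + 1) - 2 ^ (s.1 - e))
        - ((x : ℝ) / 2 ^ J) ^ 2
      ≤ ∑ n ∈ Finset.Icc 1 x, Ex p (Ib e s) (fun A => (cnt A n : ℝ)) := by
    intro s hs
    have hs' := mem_SS.mp hs
    have hcl := h.cl_pos s.1 hs'.1.1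
    rw [← Ex_sum]
    set K := x / (yb e s + Lb e s) with hK
    have h2 : Ex p (Ib e s) (fun A => (K : ℝ) * (A.card : ℝ) - (K : ℝ) * K)
        ≤ Ex p (Ib e s) (fun A => ∑ n ∈ Finset.Icc 1 x, (cnt A n : ℝ)) := by
      refine Ex_mono h.nonneg h.le_one (fun A hA => ?_)
      have h3 := le_sum_cnt (x := x) (yb_pos e s) (A := A) hA
      rw [← hK] at h3
      have h4 : (K : ℝ) * A.card ≤ ∑ n ∈ Finset.Icc 1 x, (cnt A n : ℝ) + K * K := by
        exact_mod_cast h3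
      linarith
    rw [Ex_sub, Ex_mul_left, Ex_card, Ex_const] at h2
    have h3 : 2 ^ (s.1 - e) * cl s.1 ≤ ∑ m ∈ Ib e s, p m := by
      have : ∀ m ∈ Ib e s, cl s.1 ≤ p m := by
        intro m hm
        have := mem_dyadic he hs hm
        exact h.low s.1 hs'.1.1 m this.1 this.2
      have h4 := Finset.card_nsmul_le_sum (Ib e s) p (cl s.1) this
      unfold Ib at h4
      rw [Nat.card_Ico, Nat.add_sub_cancel_left, nsmul_eq_mul] at h4
      unfold Lb at h4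
      push_cast at h4
      exact h4
    refine le_trans ?_ h2
    have hden : ((yb e s + Lb e s : ℕ) : ℝ) = 2 ^ (s.1 - e) * (2 ^ e + s.2 + 1) := by
      unfold yb Lb; push_cast; ring
    have hpos : (0 : ℝ) < 2 ^ (s.1 - e) := by positivity
    have hKge : (x : ℝ) / (2 ^ (s.1 - e) * (2 ^ e + s.2 + 1)) - 1 ≤ K := by
      have := Nat.lt_floor_add_one ((x : ℝ) / ((yb e s + Lb e s : ℕ) : ℝ))
      rw [Nat.floor_div_eq_div] at this
      rw [hden] at this
      rw [hK]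
      linarith
    have hKle : (K : ℝ) ≤ x / 2 ^ J := by
      have h5 : K ≤ x / 2 ^ J := by
        rw [hK]
        refine Nat.div_le_div_left ?_ (by positivity)
        have := yb_ge (e := e) (s := s) (by omega)
        have : 2 ^ J ≤ 2 ^ s.1 := Nat.pow_le_pow_right (by norm_num) hs'.1.1
        omega
      calc (K : ℝ) ≤ ((x / 2 ^ J : ℕ) : ℝ) := by exact_mod_cast h5
        _ ≤ (x : ℝ) / ((2 ^ J : ℕ) : ℝ) := Nat.cast_div_le
        _ = x / 2 ^ J := by push_cast; rfl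
    have hK0 : (0 : ℝ) ≤ K := Nat.cast_nonneg _
    have h6 : (K : ℝ) * K ≤ ((x : ℝ) / 2 ^ J) ^ 2 := by nlinarith
    have h7 : cl s.1 * (x / ((2 : ℝ) ^ e + s.2 + 1) - 2 ^ (s.1 - e))
        ≤ K * ∑ m ∈ Ib e s, p m := by
      have h8 : (x / ((2 : ℝ) ^ e + s.2 + 1) - 2 ^ (s.1 - e))
          = ((x : ℝ) / (2 ^ (s.1 - e) * (2 ^ e + s.2 + 1)) - 1) * 2 ^ (s.1 - e) := by
        field_simp
      rw [h8]
      have h9 : 0 ≤ (2 : ℝ) ^ (s.1 - e) * cl s.1 := mul_nonneg hpos.le hcl.le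
      have h10 : (K : ℝ) * (2 ^ (s.1 - e) * cl s.1) ≤ K * ∑ m ∈ Ib e s, p m :=
        mul_le_mul_of_nonneg_left h3 hK0
      nlinarith
    linarith
  refine le_trans ?_ (Finset.sum_le_sum h1)
  rw [Finset.sum_sub_distrib, Finset.sum_const, nsmul_eq_mul]
  have hcard : (((SS e J L).card : ℕ) : ℝ) ≤ (L + 1) * 2 ^ e := by
    unfold SS
    rw [Finset.card_product, Nat.card_Icc, Finset.card_range]
    push_cast
    refine mul_le_mul_of_nonneg_right ?_ (by positivity)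
    have : L + 1 - J ≤ L + 1 := Nat.sub_le _ _
    exact_mod_cast this
  have hA : ((SS e J L).card : ℝ) * ((x : ℝ) / 2 ^ J) ^ 2
      ≤ (L + 1) * 2 ^ e * ((x : ℝ) / 2 ^ J) ^ 2 :=
    mul_le_mul_of_nonneg_right hcard (sq_nonneg _)
  have hB : (x : ℝ) * (Real.log 2 - 1 / 2 ^ e) * ∑ j ∈ Finset.Icc J L, cl j - 2 * rho * x
      ≤ ∑ s ∈ SS e J L, cl s.1 * (x / ((2 : ℝ) ^ e + s.2 + 1) - 2 ^ (s.1 - e)) := by
    unfold SS
    rw [Finset.sum_product]
    have h3 : ∀ j ∈ Finset.Icc J L, (x : ℝ) * (Real.log 2 - 1 / 2 ^ e) * cl j - rho * 2 ^ j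
        ≤ ∑ i ∈ Finset.range (2 ^ e), cl j * (x / ((2 : ℝ) ^ e + i + 1) - 2 ^ (j - e)) := by
      intro j hj
      rw [Finset.mem_Icc] at hj
      have hcl := h.cl_pos j hj.1
      rw [← Finset.mul_sum, Finset.sum_sub_distrib, Finset.sum_const, Finset.card_range,
        nsmul_eq_mul]
      have h4 := hM_ge (2 ^ e) Nat.one_le_two_pow
      push_cast at h4
      have h5 : ∑ i ∈ Finset.range (2 ^ e), (x : ℝ) / ((2 : ℝ) ^ e + i + 1)
          = x * ∑ i ∈ Finset.range (2 ^ e), 1 / ((2 : ℝ) ^ e + i + 1) := by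
        rw [Finset.mul_sum]
        exact Finset.sum_congr rfl (fun i _ => by ring)
      have h6 : ((2 ^ e : ℕ) : ℝ) * 2 ^ (j - e) = 2 ^ j := by
        push_cast
        rw [← pow_add]; congr 1; omega
      rw [h5, h6, mul_sub]
      have h7 : cl j * 2 ^ j ≤ rho * 2 ^ j :=
        mul_le_mul_of_nonneg_right ((h.cl_le hj.1).trans (h.cu_le j hj.1)) (by positivity)
      have h8 : cl j * (x * (Real.log 2 - 1 / 2 ^ e))
          ≤ cl j * (x * ∑ i ∈ Finset.range (2 ^ e), 1 / ((2 : ℝ) ^ e + i + 1)) :=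
        mul_le_mul_of_nonneg_left (mul_le_mul_of_nonneg_left h4 hx0) hcl.le
      linarith
    refine le_trans ?_ (Finset.sum_le_sum h3)
    rw [Finset.sum_sub_distrib, ← Finset.mul_sum, ← Finset.mul_sum]
    have h9 : ∑ j ∈ Finset.Icc J L, (2 : ℝ) ^ j ≤ 2 * x := by
      have h10 : ∑ j ∈ Finset.Icc J L, (2 : ℝ) ^ j ≤ ∑ j ∈ Finset.range (L + 1), (2 : ℝ) ^ j := by
        refine Finset.sum_le_sum_of_subset_of_nonneg (fun j hj => ?_) (fun _ _ _ => by positivity)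
        rw [Finset.mem_Icc] at hj
        rw [Finset.mem_range]; omega
      have h11 : ∀ N : ℕ, ∑ j ∈ Finset.range N, (2 : ℝ) ^ j = 2 ^ N - 1 := by
        intro N
        induction N with
        | zero => simp
        | succ N ih => rw [Finset.sum_range_succ, ih]; ring
      rw [h11, pow_succ] at h10
      have h12 : (2 : ℝ) ^ L ≤ x := by exact_mod_cast hx
      linarith
    nlinarith
  linarith

end

end Pool.Agent.helper306_cramer2
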